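import Pool.Agent.Helper23.GK.StF
import Pool.Agent.Helper15.AB.M_FO

/-!
# Project GK, module DEC: decomposition of the smooth prime sum into block products
-/

set_option autoImplicit false

namespace Pool.Agent.Helper23.GK

open Finset ArithmeticFunction MeasureTheory
open Pool.Agent.Helper48.BK (ex th Sx Apx)
open Pool.Agent.Helper2.MR (ch)
open Pool.Agent.Helper15.AB (IsW)

namespace DECaux

/-- the four-fold product of blocks -/
def BB (e : Fin 4 → ℕ) : Finset (ℕ × ℕ × ℕ × ℕ) :=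
  blk2 (e 0) ×ˢ blk2 (e 1) ×ˢ blk2 (e 2) ×ˢ blk2 (e 3)

theorem blk2_bounds {e m : ℕ} (h : m ∈ blk2 e) : 1 ≤ m ∧ m ≤ 2 ^ e ∧ 2 ^ e ≤ 2 * m := by
  unfold blk2 at h
  split_ifs at h with h0
  · rw [Finset.mem_singleton] at h
    subst h; subst h0
    norm_num
  · rw [Finset.mem_Ioc] at h
    obtain ⟨e', rfl⟩ := Nat.exists_eq_succ_of_ne_zero h0
    simp only [Nat.succ_eq_add_one, Nat.add_sub_cancel] at h
    refine ⟨by omega, h.2, ?_⟩
    rw [pow_succ]
    omega

theorem Te_eq (g : ℕ → ℂ) (e : Fin 4 → ℕ) :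
    Te g e = ∑ z ∈ BB e, ((moebius z.1 : ℤ) : ℂ) * ((moebius z.2.1 : ℤ) : ℂ) *
      ((Real.log z.2.2.1 : ℝ) : ℂ) * g (z.1 * z.2.1 * z.2.2.1 * z.2.2.2) := by
  unfold Te BB
  rw [Finset.sum_product]
  refine Finset.sum_congr rfl fun a _ => ?_
  rw [Finset.sum_product]
  refine Finset.sum_congr rfl fun b _ => ?_
  rw [Finset.sum_product]

theorem ch_mul' (t : ℝ) {m n : ℕ} (hm : m ≠ 0) (hn : n ≠ 0) :
    ch t (m * n) = ch t m * ch t n := by
  unfold ch
  rw [← Complex.exp_add, Nat.cast_mul, Real.log_mul (by exact_mod_cast hm) (by exact_mod_cast hn)]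
  congr 1
  push_cast
  ring

theorem PP_eq {q : ℕ} (χ : DirichletCharacter ℂ q) (e : Fin 4 → ℕ) (s : ℝ) :
    PP χ e s = ∑ z ∈ BB e, ((moebius z.1 : ℤ) : ℂ) * ((moebius z.2.1 : ℤ) : ℂ) *
      ((Real.log z.2.2.1 : ℝ) : ℂ) * (χ ((z.1 * z.2.1 * z.2.2.1 * z.2.2.2 : ℕ) : ZMod q) *
        ch s (z.1 * z.2.1 * z.2.2.1 * z.2.2.2) / ((z.1 * z.2.1 * z.2.2.1 * z.2.2.2 : ℕ) : ℂ)) := by
  unfold PP AA cmu clog cone BB
  rw [Finset.sum_product, mul_assoc, mul_assoc, Finset.sum_mul]
  refine Finset.sum_congr rfl fun a ha => ?_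
  rw [Finset.sum_product, Finset.sum_mul, Finset.mul_sum]
  refine Finset.sum_congr rfl fun b hb => ?_
  rw [Finset.sum_product, Finset.sum_mul, Finset.mul_sum, Finset.mul_sum]
  refine Finset.sum_congr rfl fun c hc => ?_
  rw [Finset.mul_sum, Finset.mul_sum, Finset.mul_sum]
  refine Finset.sum_congr rfl fun d hd => ?_
  have ha0 : a ≠ 0 := by have := (blk2_bounds ha).1; omega
  have hb0 : b ≠ 0 := by have := (blk2_bounds hb).1; omega
  have hc0 : c ≠ 0 := by have := (blk2_bounds hc).1; omega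
  have hd0 : d ≠ 0 := by have := (blk2_bounds hd).1; omega
  rw [ch_mul' s (mul_ne_zero (mul_ne_zero ha0 hb0) hc0) hd0, ch_mul' s (mul_ne_zero ha0 hb0) hc0,
    ch_mul' s ha0 hb0]
  push_cast
  rw [map_mul, map_mul, map_mul]
  have ha1 : (a : ℂ) ≠ 0 := by exact_mod_cast ha0
  have hb1 : (b : ℂ) ≠ 0 := by exact_mod_cast hb0
  have hc1 : (c : ℂ) ≠ 0 := by exact_mod_cast hc0
  have hd1 : (d : ℂ) ≠ 0 := by exact_mod_cast hd0
  field_simp

theorem ch_cont (n : ℕ) : Continuous (fun t : ℝ => ch t n) := by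
  unfold ch
  fun_prop

theorem ch_norm' (t : ℝ) (n : ℕ) : ‖ch t n‖ = 1 := by
  unfold ch
  exact Complex.norm_exp_ofReal_mul_I _

theorem w_zero {w : ℝ → ℝ} (hw : IsW w) {X n : ℕ} (hX : 1 ≤ X) (hn : 1 ≤ n)
    (h : n < X ∨ 3 * X ≤ n) : w (Real.log (n / X)) = 0 := by
  have hX0 : (0 : ℝ) < X := by exact_mod_cast hX
  have hn0 : (0 : ℝ) < n := by exact_mod_cast hn
  apply hw.supp
  rintro ⟨h1, h2⟩
  rcases h with h | h
  · have : (n : ℝ) / X < 1 := by
      rw [div_lt_one hX0]; exact_mod_cast h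
    have := Real.log_neg (by positivity) this
    linarith
  · have h3 : (3 : ℝ) ≤ n / X := by
      rw [le_div_iff₀ hX0]; exact_mod_cast h
    have h4 : Real.log 3 ≤ Real.log (n / X) := Real.log_le_log (by norm_num) h3
    have h5 : (1 : ℝ) < Real.log 3 := by
      rw [Real.lt_log_iff_exp_lt (by norm_num)]
      have := Real.exp_one_lt_d9
      linarith
    linarith

end DECaux

open DECaux in
theorem hDEC (hHB : StHb) : StDec := by
  intro w hw
  obtain ⟨CF, hCF, hF⟩ := Pool.Agent.Helper15.AB.hFO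
  have hw2 : ContDiff ℝ 2 w := hw.smooth.of_le (by norm_num)
  have hsupp : HasCompactSupport w := HasCompactSupport.intro isCompact_Icc hw.supp
  have hc2 : Continuous (iteratedDeriv 2 w) := hw2.continuous_iteratedDeriv 2 le_rfl
  have hs2 : HasCompactSupport (iteratedDeriv 2 w) := by
    rw [iteratedDeriv_succ, iteratedDeriv_one]
    exact hsupp.deriv.deriv
  obtain ⟨M2, hM2⟩ := hc2.bounded_above_of_compact_support hs2
  obtain ⟨K, hKc, hKb, hK⟩ := hF w (max 1 M2) hw2 (by positivity) hw.supp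
    (fun t => by
      rw [abs_of_nonneg (hw.nonneg t)]
      exact (hw.le_one t).trans (le_max_left _ _))
    (fun t => by
      have := hM2 t
      rw [Real.norm_eq_abs] at this
      exact this.trans (le_max_right _ _))
  have hKi : Integrable K := by
    refine Integrable.mono' (integrable_inv_one_add_sq.const_mul (CF * max 1 M2))
      hKc.aestronglyMeasurable (Filter.Eventually.of_forall fun ξ => ?_)
    exact hKb ξ
  refine ⟨K, CF * max 1 M2, by positivity, hKc, hKb, ?_⟩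
  intro q χ X u t hX hu
  set g : ℕ → ℂ := fun n => ((w (Real.log (n / X)) : ℝ) : ℂ) * (χ (n : ZMod q) * ch t n / n) with hg
  have hX0 : (0 : ℝ) < X := by exact_mod_cast hX
  have hgz : ∀ n, (n < X ∨ 3 * X ≤ n) → g n = 0 := by
    intro n hn
    rcases Nat.eq_zero_or_pos n with h0 | h0
    · rw [hg, h0]; simp
    · rw [hg]
      simp only
      rw [w_zero hw hX h0 hn]; simp
  -- the integral formula for `g`
  have hgi : ∀ n : ℕ, 1 ≤ n → g n = ∫ ξ : ℝ, K ξ *
      Complex.exp (((-(ξ * Real.log X) : ℝ) : ℂ) * Complex.I) *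
        (χ (n : ZMod q) * ch (t - ξ) n / n) := by
    intro n hn
    have hn0 : (0 : ℝ) < n := by exact_mod_cast hn
    rw [hg]
    simp only
    rw [hK, ← integral_mul_const]
    refine integral_congr_ae (Filter.Eventually.of_forall fun ξ => ?_)
    simp only
    have h1 : Complex.exp (((ξ * Real.log (n / X) : ℝ) : ℂ) * Complex.I) * ch t n =
        Complex.exp (((-(ξ * Real.log X) : ℝ) : ℂ) * Complex.I) * ch (t - ξ) n := by
      unfold ch
      rw [← Complex.exp_add, ← Complex.exp_add, Real.log_div hn0.ne' hX0.ne']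
      congr 1
      push_cast
      ring
    calc _ = K ξ * (Complex.exp (((ξ * Real.log (n / X) : ℝ) : ℂ) * Complex.I) * ch t n) *
          (χ (n : ZMod q) / n) := by ring
      _ = _ := by rw [h1]; ring
  have hTe : ∀ e : Fin 4 → ℕ, Te g e = ∫ ξ : ℝ, K ξ *
      Complex.exp (((-(ξ * Real.log X) : ℝ) : ℂ) * Complex.I) * PP χ e (t - ξ) := by
    intro e
    rw [Te_eq]
    have h2 : ∀ ξ : ℝ, K ξ * Complex.exp (((-(ξ * Real.log X) : ℝ) : ℂ) * Complex.I) *
        PP χ e (t - ξ) = ∑ z ∈ BB e, K ξ *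
          Complex.exp (((-(ξ * Real.log X) : ℝ) : ℂ) * Complex.I) *
          (((moebius z.1 : ℤ) : ℂ) * ((moebius z.2.1 : ℤ) : ℂ) *
          ((Real.log z.2.2.1 : ℝ) : ℂ) * (χ ((z.1 * z.2.1 * z.2.2.1 * z.2.2.2 : ℕ) : ZMod q) *
          ch (t - ξ) (z.1 * z.2.1 * z.2.2.1 * z.2.2.2) /
            ((z.1 * z.2.1 * z.2.2.1 * z.2.2.2 : ℕ) : ℂ))) := by
      intro ξ
      rw [PP_eq, Finset.mul_sum]
    simp_rw [h2]
    rw [integral_finsetSum]
    · refine Finset.sum_congr rfl fun z hz => ?_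
      have hz1 : 1 ≤ z.1 * z.2.1 * z.2.2.1 * z.2.2.2 := by
        unfold BB at hz
        rw [Finset.mem_product, Finset.mem_product, Finset.mem_product] at hz
        have h1 := (blk2_bounds hz.1).1
        have h2 := (blk2_bounds hz.2.1).1
        have h3 := (blk2_bounds hz.2.2.1).1
        have h4 := (blk2_bounds hz.2.2.2).1
        exact Nat.succ_le_of_lt (by positivity)
      rw [hgi _ hz1, ← integral_const_mul]
      refine integral_congr_ae (Filter.Eventually.of_forall fun ξ => ?_)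
      simp only
      ring
    · intro z _
      set n := z.1 * z.2.1 * z.2.2.1 * z.2.2.2 with hn
      have h3 : Integrable (fun ξ : ℝ => K ξ *
          (Complex.exp (((-(ξ * Real.log X) : ℝ) : ℂ) * Complex.I) * ch (t - ξ) n)) := by
        refine hKi.mul_bdd (c := 1) ?_ (Filter.Eventually.of_forall fun ξ => ?_)
        · have : Continuous (fun ξ : ℝ =>
              Complex.exp (((-(ξ * Real.log X) : ℝ) : ℂ) * Complex.I) * ch (t - ξ) n) := by
            have h4 := (ch_cont n).comp (continuous_const.sub continuous_id : Continuous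
              (fun ξ : ℝ => t - ξ))
            have h5 : Continuous (fun ξ : ℝ =>
              Complex.exp (((-(ξ * Real.log X) : ℝ) : ℂ) * Complex.I)) := by fun_prop
            exact h5.mul h4
          exact this.aestronglyMeasurable
        · rw [norm_mul, Complex.norm_exp_ofReal_mul_I, ch_norm', mul_one]
      have h4 := h3.mul_const (((moebius z.1 : ℤ) : ℂ) * ((moebius z.2.1 : ℤ) : ℂ) *
          ((Real.log z.2.2.1 : ℝ) : ℂ) * (χ (n : ZMod q) / (n : ℂ)))
      refine h4.congr (Filter.Eventually.of_forall fun ξ => ?_)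
      simp only
      ring
  -- assembly
  have hGA : GA w χ X t = ∑ n ∈ Icc 1 (4 ^ u), ((Λ n : ℝ) : ℂ) * g n := by
    unfold GA
    rw [← Finset.sum_subset (Finset.Icc_subset_Icc le_rfl hu)]
    · refine Finset.sum_congr rfl fun n _ => ?_
      rw [hg]
      push_cast
      ring
    · intro n hn hn'
      rw [Finset.mem_Icc] at hn hn'
      rw [hgz n (Or.inr (by omega)), mul_zero]
  rw [hGA, hHB u g (fun n hn => hgz n (Or.inr (by omega)))]
  symm
  rw [Finset.sum_filter]
  refine Finset.sum_congr rfl fun e _ => ?_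
  rw [← hTe]
  by_cases h1 : X ≤ 2 ^ (∑ i, e i) ∧ 2 ^ (∑ i, e i) ≤ 64 * X
  · rw [if_pos h1]
  · rw [if_neg h1]
    symm
    apply mul_eq_zero_of_right
    rw [Te_eq]
    refine Finset.sum_eq_zero fun z hz => ?_
    apply mul_eq_zero_of_right
    unfold BB at hz
    rw [Finset.mem_product, Finset.mem_product, Finset.mem_product] at hz
    obtain ⟨a1, a2, a3⟩ := blk2_bounds hz.1
    obtain ⟨b1, b2, b3⟩ := blk2_bounds hz.2.1
    obtain ⟨c1, c2, c3⟩ := blk2_bounds hz.2.2.1
    obtain ⟨d1, d2, d3⟩ := blk2_bounds hz.2.2.2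
    have hs : 2 ^ (∑ i, e i) = 2 ^ e 0 * 2 ^ e 1 * 2 ^ e 2 * 2 ^ e 3 := by
      rw [Fin.sum_univ_four, pow_add, pow_add, pow_add]
    have hle : z.1 * z.2.1 * z.2.2.1 * z.2.2.2 ≤ 2 ^ (∑ i, e i) := by
      rw [hs]
      exact Nat.mul_le_mul (Nat.mul_le_mul (Nat.mul_le_mul a2 b2) c2) d2
    have hge : 2 ^ (∑ i, e i) ≤ 16 * (z.1 * z.2.1 * z.2.2.1 * z.2.2.2) := by
      rw [hs]
      calc _ ≤ 2 * z.1 * (2 * z.2.1) * (2 * z.2.2.1) * (2 * z.2.2.2) :=
            Nat.mul_le_mul (Nat.mul_le_mul (Nat.mul_le_mul a3 b3) c3) d3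
        _ = _ := by ring
    apply hgz
    by_contra hcon
    push Not at hcon
    apply h1
    refine ⟨by omega, by omega⟩

end Pool.Agent.Helper23.GK
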