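import Pool.Agent.Helper23.GK.StG

/-!
# Project GK, module FN3: all scales
-/

set_option autoImplicit false

namespace Pool.Agent.Helper23.GK

open Finset

theorem FN3_growth (A : ℕ) : ∃ X1 : ℕ, ∀ X : ℕ, X1 ≤ X → Real.log X ^ A ≤ X ∧
    3 * ((A : ℝ) + 1) * Real.log 3 ≤ Real.log X := by
  have h1 : ∀ᶠ x : ℝ in Filter.atTop, ‖Real.log x ^ A‖ ≤ 1 * ‖id x‖ :=
    (Real.isLittleO_pow_log_id_atTop (n := A)).bound one_pos
  have h2 : ∀ᶠ x : ℝ in Filter.atTop, 3 * ((A : ℝ) + 1) * Real.log 3 ≤ Real.log x :=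
    Real.tendsto_log_atTop.eventually_ge_atTop _
  obtain ⟨x1, hx1⟩ := Filter.eventually_atTop.mp ((h1.and h2).and (Filter.eventually_ge_atTop 1))
  refine ⟨⌈x1⌉₊, fun X hX => ?_⟩
  obtain ⟨⟨h3, h4⟩, h5⟩ := hx1 X ((Nat.le_ceil x1).trans (by exact_mod_cast hX))
  refine ⟨?_, h4⟩
  rw [one_mul, id, Real.norm_eq_abs, Real.norm_eq_abs,
    abs_of_nonneg (Nat.cast_nonneg (α := ℝ) X)] at h3
  exact (le_abs_self _).trans h3

theorem FN3_ratio (A X Y : ℕ) (hX : 2 ≤ X) (hXY : X ≤ 3 * Y)
    (h : 3 * ((A : ℝ) + 1) * Real.log 3 ≤ Real.log X) :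
    0 < Real.log Y ∧ Real.log X ^ A ≤ 3 / 2 * Real.log Y ^ A := by
  have h3 : 1 < Real.log 3 := by
    rw [Real.lt_log_iff_exp_lt (by norm_num)]
    have := Real.exp_one_lt_d9
    linarith
  have hA : (0 : ℝ) ≤ A := Nat.cast_nonneg A
  have hX0 : (0 : ℝ) < X := by exact_mod_cast (by omega : 0 < X)
  have hY0 : (0 : ℝ) < Y := by exact_mod_cast (by omega : 0 < Y)
  have hl : 0 < Real.log X := by
    have : 0 < 3 * ((A : ℝ) + 1) * Real.log 3 := by positivity
    linarith
  have h4 : Real.log X - Real.log 3 ≤ Real.log Y := by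
    have h5 : (X : ℝ) ≤ 3 * Y := by exact_mod_cast hXY
    have h6 := Real.log_le_log hX0 h5
    rw [Real.log_mul (by norm_num) hY0.ne'] at h6
    linarith
  set δ := Real.log 3 / Real.log X with hδ
  have hδ0 : 0 ≤ δ := by positivity
  have hδ1 : 3 * ((A : ℝ) + 1) * δ ≤ 1 := by
    rw [hδ, ← mul_div_assoc, div_le_one hl]
    exact h
  have h7 : (1 - δ) * Real.log X ≤ Real.log Y := by
    rw [hδ, sub_mul, one_mul, div_mul_cancel₀ _ hl.ne']
    exact h4
  have hδ3 : δ ≤ 1 / 3 := by nlinarith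
  have h8 : 2 / 3 ≤ (1 - δ) ^ A := by
    have h9 := one_add_mul_le_pow (a := -δ) (by linarith) A
    have h10 : 1 + (-δ) = 1 - δ := by ring
    rw [h10] at h9
    nlinarith
  have h11 : 0 < (1 - δ) * Real.log X := mul_pos (by linarith) hl
  refine ⟨by linarith, ?_⟩
  have h12 : ((1 - δ) * Real.log X) ^ A ≤ Real.log Y ^ A := pow_le_pow_left₀ h11.le h7 A
  rw [mul_pow] at h12
  have h13 : 0 ≤ Real.log X ^ A := by positivity
  nlinarith [mul_le_mul_of_nonneg_right h8 h13]

open Classical in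
theorem Exc_union (A K : ℕ) (s t : Finset ℕ) :
    (Exc A K (s ∪ t)).card ≤ (Exc A K s).card + (Exc A K t).card := by
  unfold Exc
  rw [Finset.filter_union]
  exact Finset.card_union_le _ _

open Classical in
theorem Exc_mono (A K : ℕ) {s t : Finset ℕ} (h : s ⊆ t) :
    (Exc A K s).card ≤ (Exc A K t).card := by
  unfold Exc
  exact Finset.card_le_card (Finset.filter_subset_filter _ h)

open Classical in
theorem Exc_card_le (A K : ℕ) (s : Finset ℕ) : (Exc A K s).card ≤ s.card := by
  unfold Exc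
  exact Finset.card_filter_le _ _

theorem hFN3 (h : StFn2) : StFn3 := by
  intro A K
  obtain ⟨X0, hX0⟩ := h A K
  obtain ⟨X1, hX1⟩ := FN3_growth A
  set X2 : ℕ := max (max X1 (2 * X0 + 2)) 4 with hX2
  set C : ℝ := max 7 (Real.log X2 ^ A) with hC
  refine ⟨C, fun X => ?_⟩
  induction X using Nat.strong_induction_on with
  | _ X ih =>
    intro hX
    have hXr : (2 : ℝ) ≤ X := by exact_mod_cast hX
    have hlX : 0 < Real.log X := Real.log_pos (by linarith)
    have hlA : 0 < Real.log X ^ A := by positivity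
    have hC7 : 7 ≤ C := le_max_left _ _
    by_cases hbig : X2 ≤ X
    · have h1 : X1 ≤ X := le_trans (le_trans (le_max_left _ _) (le_max_left _ _)) hbig
      have h2 : 2 * X0 + 2 ≤ X := le_trans (le_trans (le_max_right _ _) (le_max_left _ _)) hbig
      have h3 : 4 ≤ X := le_trans (le_max_right _ _) hbig
      set Y := X / 2 with hY
      have hYX : Y < X := by omega
      have hY2 : 2 ≤ Y := by omega
      have hXY : X ≤ 3 * Y := by omega
      have hYX0 : X0 ≤ Y := by omega
      obtain ⟨g1, g2⟩ := hX1 X h1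
      obtain ⟨r1, r2⟩ := FN3_ratio A X Y hX hXY g2
      have e1 := ih Y hYX hY2
      have e2 := hX0 Y hYX0
      have hsub : Icc 1 X ⊆ (Icc 1 Y ∪ Ioc Y (2 * Y)) ∪ {2 * Y + 1} := by
        intro n hn
        rw [Finset.mem_Icc] at hn
        rw [Finset.mem_union, Finset.mem_union, Finset.mem_Icc, Finset.mem_Ioc,
          Finset.mem_singleton]
        omega
      have e3 : (Exc A K (Icc 1 X)).card ≤
          (Exc A K (Icc 1 Y)).card + (Exc A K (Ioc Y (2 * Y))).card + 1 := by
        refine (Exc_mono A K hsub).trans ((Exc_union A K _ _).trans ?_)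
        refine add_le_add (Exc_union A K _ _) ?_
        exact (Exc_card_le A K _).trans (by simp)
      have e4 : ((Exc A K (Icc 1 X)).card : ℝ) ≤
          (Exc A K (Icc 1 Y)).card + (Exc A K (Ioc Y (2 * Y))).card + 1 := by
        exact_mod_cast e3
      have hY0 : (0 : ℝ) ≤ Y := Nat.cast_nonneg Y
      have hlY : 0 < Real.log Y ^ A := by positivity
      have hYX2 : (Y : ℝ) ≤ X / 2 := by
        rw [le_div_iff₀ (by norm_num)]
        have : Y * 2 ≤ X := by omega
        exact_mod_cast this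
      have e5 : (Y : ℝ) / Real.log Y ^ A ≤ 3 / 4 * (X / Real.log X ^ A) := by
        rw [div_le_iff₀ hlY]
        have : 3 / 4 * (X / Real.log X ^ A) * Real.log Y ^ A =
          (X / 2) * (3 / 2 * Real.log Y ^ A / Real.log X ^ A) := by ring
        rw [this]
        have h5 : 1 ≤ 3 / 2 * Real.log Y ^ A / Real.log X ^ A := by
          rw [le_div_iff₀ hlA]; linarith
        nlinarith
      have e6 : 1 ≤ X / Real.log X ^ A := by
        rw [le_div_iff₀ hlA]; linarith
      have e7 : C * Y / Real.log Y ^ A = C * (Y / Real.log Y ^ A) := by ring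
      have e8 : C * X / Real.log X ^ A = C * (X / Real.log X ^ A) := by ring
      rw [e7] at e1
      rw [e8]
      nlinarith
    · push Not at hbig
      have h1 : ((Exc A K (Icc 1 X)).card : ℝ) ≤ X := by
        have := Exc_card_le A K (Icc 1 X)
        rw [Nat.card_Icc, Nat.add_sub_cancel] at this
        exact_mod_cast this
      refine h1.trans ?_
      rw [le_div_iff₀ hlA]
      have h2 : Real.log X ^ A ≤ C := by
        refine le_trans ?_ (le_max_right _ _)
        exact pow_le_pow_left₀ hlX.le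
          (Real.log_le_log (by linarith) (by exact_mod_cast hbig.le)) A
      nlinarith

end Pool.Agent.Helper23.GK
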