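import Pool.Agent.Helper23.GK.M_COR2
import Pool.Agent.Helper23.GK.M_DEC
import Pool.Agent.Helper23.GK.M_FN3
import Pool.Agent.Helper1.GK.M_COI
import Pool.Agent.Helper1.GK.M_SHF
import Pool.Agent.Helper1.GK.M_STP
import Pool.Agent.Helper1.GK.M_LOW
import Pool.Agent.Helper1.GK.M_SHA
import Pool.Agent.Helper1.GK.M_DVQ
import Pool.Agent.Helper11.GK.M_MOB
import Pool.Agent.Helper16.GK.M_WIN
import Pool.Agent.Helper19.GK.M_ES2
import Pool.Agent.Helper19.GK.M_ES3
import Pool.Agent.Helper19.GK.M_MUK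
import Pool.Agent.Helper22.GK.M_TFO
import Pool.Agent.Helper22.GK.M_ZFR
import Pool.Agent.Helper29.GK.M_RAM
import Pool.Agent.Helper29.GK.M_CNV
import Pool.Agent.Helper29.GK.M_SSA
import Pool.Agent.Helper29.GK.M_MNQ
import Pool.Agent.Helper40.GK.M_LAP
import Pool.Agent.Helper40.GK.M_LMI
import Pool.Agent.Helper40.GK.M_RES
import Pool.Agent.Helper42.GK.M_TUP
import Pool.Agent.Helper43.GK.M_VIN
import Pool.Agent.Helper44.GK.M_AP1
import Pool.Agent.Helper45.GK.M_GRO
import Pool.Agent.Helper45.GK.M_INV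
import Pool.Agent.Helper47.GK.M_TOT
import Pool.Agent.Helper5.GK.M_SU2
import Pool.Agent.Helper57.GK.M_FN1
import Pool.Agent.Helper64.GK.M_GPP
import Pool.Agent.Helper64.GK.M_LIN
import Pool.Agent.Helper64.GK.M_SU1
import Pool.Agent.Helper64.GK.M_SU3
import Pool.Agent.Helper64.GK.M_TAY
import Pool.Agent.Helper64.GK.M_WSU
import Pool.Agent.Helper65.GK.M_SSC
import Pool.Agent.Helper67.GK.M_EMS
import Pool.Agent.Helper67.GK.M_PRM
import Pool.Agent.Helper67.GK.M_SU0
import Pool.Agent.Helper67.GK.M_VMV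
import Pool.Agent.Helper71.GK.M_MEA
import Pool.Agent.Helper76.GK.M_HIF
import Pool.Agent.Helper81.GK.M_AP2
import Pool.Agent.Helper87.GK.M_HB
import Pool.Agent.Helper87.GK.M_SSB
import Pool.Agent.Helper87.GK.M_FN2
import Pool.Agent.Helper92.GK.M_BCA
import Pool.Agent.Helper92.GK.M_HOL
import Pool.Agent.Helper92.GK.M_LAN
import Pool.Agent.Helper92.GK.M_RML
import Pool.Agent.Helper92.GK.M_PER
import Pool.Agent.Helper92.GK.M_ES1
import Pool.Agent.Helper48.BK.Top

/-!
# Project GK: assembly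
-/

set_option autoImplicit false

namespace Pool.Agent.Helper23.GK

namespace AllGK

/-! ### A: Vinogradov's mean value theorem -/

theorem lin : StLin := Pool.Agent.Helper64.GK.hLIN
theorem shf : StShf := Pool.Agent.Helper1.GK.hSHF
theorem coi : StCoi := Pool.Agent.Helper1.GK.hCOI
theorem gpp : StGpp := Pool.Agent.Helper64.GK.hGPP lin shf
theorem stp : StStp := Pool.Agent.Helper1.GK.hSTP coi gpp
theorem prm : StPrm := Pool.Agent.Helper67.GK.hPRM
theorem vmv : StVmv := Pool.Agent.Helper67.GK.hVMV stp prm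

/-! ### B: exponential sums -/

theorem hol : StHol := Pool.Agent.Helper92.GK.hHOL shf
theorem wsu : StWsu := Pool.Agent.Helper64.GK.hWSU
theorem tay : StTay := Pool.Agent.Helper64.GK.hTAY
theorem vin : StVin := Pool.Agent.Helper43.GK.hVIN hol vmv wsu tay
theorem ems : StEms := Pool.Agent.Helper67.GK.hEMS
theorem res : StRes := Pool.Agent.Helper40.GK.hRES
theorem es1 : StEs1 := Pool.Agent.Helper92.GK.hES1 vin ems res
theorem es2 : StEs2 := Pool.Agent.Helper19.GK.hES2 vin ems res
theorem es3 : StEs3 := Pool.Agent.Helper19.GK.hES3 ems res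
theorem ap1 : StAp1 := Pool.Agent.Helper44.GK.hAP1
theorem ap2 : StAp2 := Pool.Agent.Helper81.GK.hAP2
theorem gro : StGro := Pool.Agent.Helper45.GK.hGRO ap1 ap2 es1

/-! ### C, E: the zero free region and the Möbius function -/

theorem lan : StLan := Pool.Agent.Helper92.GK.hLAN
theorem bca : StBca := Pool.Agent.Helper92.GK.hBCA
theorem tfo : StTfo := Pool.Agent.Helper22.GK.hTFO
theorem zfr : StZfr := Pool.Agent.Helper22.GK.hZFR lan tfo gro
theorem inv : StInv := Pool.Agent.Helper45.GK.hINV zfr bca tfo gro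
theorem muk : StMuk := Pool.Agent.Helper19.GK.hMUK inv
theorem per : StPer := Pool.Agent.Helper92.GK.hPER
theorem rml : StRml := Pool.Agent.Helper92.GK.hRML
theorem mob : StMob := Pool.Agent.Helper11.GK.hMOB muk per rml

/-! ### F: primes in almost all short intervals -/

theorem hb : StHb := Pool.Agent.Helper87.GK.hHB
theorem dec : StDec := hDEC hb
theorem mea : StMea := Pool.Agent.Helper71.GK.hMEA
theorem su0 : StSu0 := Pool.Agent.Helper67.GK.hSU0
theorem su1 : StSu1 := Pool.Agent.Helper64.GK.hSU1 mob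
theorem su2 : StSu2 := Pool.Agent.Helper5.GK.hSU2 es2
theorem su3 : StSu3 := Pool.Agent.Helper64.GK.hSU3 es3
theorem tup : StTup := Pool.Agent.Helper42.GK.hTUP mea su0 su1 su2 su3
theorem hif : StHif := Pool.Agent.Helper76.GK.hHIF dec tup mea su0
theorem low : StLow := Pool.Agent.Helper1.GK.hLOW Pool.Agent.Helper48.BK.tSW
theorem tot : StTot := Pool.Agent.Helper47.GK.hTOT hif low
theorem sha : StSha := Pool.Agent.Helper1.GK.hSHA
theorem win : StWin := Pool.Agent.Helper16.GK.hWIN tot sha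

/-! ### G: the circle method -/

theorem ram : StRam := Pool.Agent.Helper29.GK.hRAM
theorem lap : StLap := Pool.Agent.Helper40.GK.hLAP ram
theorem lmi : StLmi := Pool.Agent.Helper40.GK.hLMI ram
theorem dvq : StDvq :=
  Pool.Agent.Helper1.GK.hDVQ Pool.Agent.Helper48.BK.tVau Pool.Agent.Helper48.BK.tSW lap lmi
theorem cnv : StCnv := Pool.Agent.Helper29.GK.hCNV
theorem mnq : StMnq := Pool.Agent.Helper29.GK.hMNQ ram
theorem ssa : StSsa := Pool.Agent.Helper29.GK.hSSA
theorem ssb : StSsb := Pool.Agent.Helper87.GK.hSSB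
theorem ssc : StSsc := Pool.Agent.Helper65.GK.hSSC ram ssb
theorem fn1 : StFn1 := Pool.Agent.Helper57.GK.hFN1 win dvq cnv mnq ssc
theorem fn2 : StFn2 := Pool.Agent.Helper87.GK.hFN2 fn1 ssa
theorem fn3 : StFn3 := hFN3 fn2

end AllGK

/-- the final theorem of the project -/
theorem final : StFinal := hFIN AllGK.fn3 AllGK.ssa

end Pool.Agent.Helper23.GK
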