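import Mathlib
import Pool.Agent.Helper48.BK.StD
import Pool.Agent.Helper2.MR.St
import Pool.Agent.Helper15.AB.StBV

/-!
# Project GK (MP_b454d1_nt): the Goldbach-Knjzek-Rivera conjecture for almost all even integers

Definitions. Notation reused from the library: `ex t = exp(2πit)`, `th`, `Sx`, `Apx`
(`Helper48.BK`), `ch t n = n^{-it}` (`Helper2.MR`), `IsW` (`Helper15.AB`).
-/

set_option autoImplicit false

namespace Pool.Agent.Helper23.GK

open Finset ArithmeticFunction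
open Pool.Agent.Helper48.BK (ex th Sx Apx)
open Pool.Agent.Helper2.MR (ch)
open Pool.Agent.Helper15.AB (IsW)

/-! ### A: Vinogradov's system -/

open Classical in
/-- number of solutions of Vinogradov's system: pairs of `s`-tuples from `[1, X]` with equal power
sums of degree `1, ..., k` -/
noncomputable def JJ (k s X : ℕ) : ℕ :=
  ((Fintype.piFinset (fun _ : Fin s => Icc 1 X) ×ˢ Fintype.piFinset (fun _ : Fin s => Icc 1 X)).filter
    (fun z : (Fin s → ℕ) × (Fin s → ℕ) =>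
      ∀ j ∈ Icc 1 k, ∑ i, z.1 i ^ j = ∑ i, z.2 i ^ j)).card

/-- the tuple `x` is pairwise incongruent modulo `p` -/
def Inc {k : ℕ} (p : ℕ) (x : Fin k → ℕ) : Prop := ∀ i j, i ≠ j → ¬ x i ≡ x j [MOD p]

open Classical in
/-- solutions of Vinogradov's system with `k + s` variables on each side, the first `k` of which
are pairwise incongruent modulo `p` -/
noncomputable def GG (k s X p : ℕ) : ℕ :=
  (((Fintype.piFinset (fun _ : Fin k => Icc 1 X) ×ˢ Fintype.piFinset (fun _ : Fin k => Icc 1 X)) ×ˢ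
    (Fintype.piFinset (fun _ : Fin s => Icc 1 X) ×ˢ
      Fintype.piFinset (fun _ : Fin s => Icc 1 X))).filter
    (fun z : ((Fin k → ℕ) × (Fin k → ℕ)) × ((Fin s → ℕ) × (Fin s → ℕ)) =>
      Inc p z.1.1 ∧ Inc p z.1.2 ∧
      ∀ j ∈ Icc 1 k, ∑ i, z.1.1 i ^ j + ∑ i, z.2.1 i ^ j =
        ∑ i, z.1.2 i ^ j + ∑ i, z.2.2 i ^ j)).card

/-! ### B: exponential sums -/

/-- `∑_{|u| ≤ U} |∑_{|v| ≤ U} e(a u v)|` -/
noncomputable def WU (a : ℝ) (U : ℕ) : ℝ :=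
  ∑ u ∈ Icc (-(U : ℤ)) U, ‖∑ v ∈ Icc (-(U : ℤ)) U, ex (a * u * v)‖

/-- `(n + θ)^{-it}` -/
noncomputable def cs (t θ : ℝ) (n : ℕ) : ℂ :=
  Complex.exp (((-(t * Real.log (n + θ)) : ℝ) : ℂ) * Complex.I)

/-- `log (|t| + 3)` -/
noncomputable def el (t : ℝ) : ℝ := Real.log (|t| + 3)

/-- `(log (|t| + 3))^{9/10}` -/
noncomputable def vv (t : ℝ) : ℝ := el t ^ (9 / 10 : ℝ)

/-- `(log (|t| + 3))^{9/10} log (3 q log (|t| + 3))` -/
noncomputable def wq (q : ℕ) (t : ℝ) : ℝ := vv t * Real.log (3 * q * el t)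

/-- coefficients `μ(n) χ(n) (log n)^k` -/
noncomputable def Mk {q : ℕ} (χ : DirichletCharacter ℂ q) (k n : ℕ) : ℂ :=
  ((moebius n : ℤ) : ℂ) * χ (n : ZMod q) * ((Real.log n : ℝ) : ℂ) ^ k

/-! ### F: block polynomials -/

/-- dyadic blocks `{1}`, `(2^{e-1}, 2^e]` -/
def blk2 (e : ℕ) : Finset ℕ := if e = 0 then {1} else Ioc (2 ^ (e - 1)) (2 ^ e)

/-- `∑_{n ∈ block e} a(n) n^{-1-it}` -/
noncomputable def AA (a : ℕ → ℂ) (e : ℕ) (t : ℝ) : ℂ := ∑ n ∈ blk2 e, a n * ch t n / n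

/-- `μ(n) χ(n)` -/
noncomputable def cmu {q : ℕ} (χ : DirichletCharacter ℂ q) (n : ℕ) : ℂ :=
  ((moebius n : ℤ) : ℂ) * χ (n : ZMod q)

/-- `χ(n)` -/
noncomputable def cone {q : ℕ} (χ : DirichletCharacter ℂ q) (n : ℕ) : ℂ := χ (n : ZMod q)

/-- `χ(n) log n` -/
noncomputable def clog {q : ℕ} (χ : DirichletCharacter ℂ q) (n : ℕ) : ℂ :=
  χ (n : ZMod q) * ((Real.log n : ℝ) : ℂ)

/-- the four block polynomials: two with `μ χ`, one with `χ log`, one with `χ` -/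
noncomputable def PP {q : ℕ} (χ : DirichletCharacter ℂ q) (e : Fin 4 → ℕ) (t : ℝ) : ℂ :=
  AA (cmu χ) (e 0) t * AA (cmu χ) (e 1) t * AA (clog χ) (e 2) t * AA (cone χ) (e 3) t

open Classical in
/-- the balanced weight `w(log(m/X)) (Λ(m) 1_{m ≡ u (q)} - 1_{(u,q)=1}/φ(q))` -/
noncomputable def gw (w : ℝ → ℝ) (X : ℝ) (q u m : ℕ) : ℝ :=
  w (Real.log (m / X)) * ((if m ≡ u [MOD q] then Λ m else 0) -
    (if Nat.Coprime u q then 1 / (Nat.totient q : ℝ) else 0))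

/-! ### G: circle method -/

/-- Ramanujan sums `c_q(n) = ∑_{d ∣ (q,n)} d μ(q/d)` -/
def cR (q : ℕ) (n : ℤ) : ℤ :=
  ∑ d ∈ q.divisors.filter (fun d : ℕ => (d : ℤ) ∣ n), (d : ℤ) * moebius (q / d)

/-- the model `∑_{q ≤ Q} μ(q) c_q(n) / φ(q)` of the primes -/
noncomputable def LQ (Q n : ℕ) : ℝ :=
  ∑ q ∈ Icc 1 Q, (moebius q : ℝ) / (Nat.totient q : ℝ) * (cR q n : ℝ)

/-- the truncated singular series -/
noncomputable def SQ (Q N : ℕ) : ℝ :=
  ∑ q ∈ Icc 1 Q, (moebius q : ℝ) ^ 2 / (Nat.totient q : ℝ) ^ 2 * (cR q N : ℝ)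

/-- the singular series `2 ∏_{p > 2} (1 - 1/(p-1)²) ∏_{p ∣ N, p > 2} (p-1)/(p-2)` -/
noncomputable def SS (N : ℕ) : ℝ :=
  2 * (∏' p : {p : ℕ // p.Prime ∧ 2 < p}, (1 - 1 / ((p : ℝ) - 1) ^ 2)) *
    ∏ p ∈ N.primeFactors.filter (fun p => 2 < p), (((p : ℝ) - 1) / ((p : ℝ) - 2))

open Classical in
/-- discrepancy of the primes in `[N - H, N)` and the class `u` modulo `q` -/
noncomputable def EE (N H q u : ℕ) : ℝ :=
  (∑ m ∈ (Ico (N - H) N).filter (fun m => m ≡ u [MOD q]), th m) -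
    (if Nat.Coprime u q then (H : ℝ) / Nat.totient q else 0)

open Classical in
/-- weighted number of representations `N = p + (N - p)` with `p ≤ y` -/
noncomputable def RN (N : ℕ) (y : ℝ) : ℝ :=
  ∑ p ∈ (Icc 1 ⌊y⌋₊).filter (fun p => p.Prime ∧ p < N ∧ (N - p).Prime),
    Real.log p * Real.log ((N - p : ℕ) : ℝ)

end Pool.Agent.Helper23.GK
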