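import Pool.Agent.Helper23.GK.StG

/-!
# Project GK: the corollary for the Goldbach-Knjzek-Rivera problem
-/

set_option autoImplicit false

namespace Pool.Agent.Helper23.GK

open Finset

/-- for an even `N > 4` outside the exceptional set there is a prime `p ∈ (√N, 4√N)` with `N - p`
prime -/
theorem cor_aux (hs : StSsa) (A N : ℕ) (hN : 4 < N)
    (hx : ¬ ∃ y : ℝ, 0 ≤ y ∧ y ≤ (4 : ℕ) * √(N : ℝ) ∧
      √(N : ℝ) / Real.log N ^ A < |RN N y - SS N * y|) :
    ∃ p : ℕ, p.Prime ∧ √(N : ℝ) < p ∧ (p : ℝ) < 4 * √(N : ℝ) ∧ (N - p).Prime := by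
  classical
  by_contra hcon
  push Not at hcon hx
  have hN1 : (4 : ℝ) < N := by exact_mod_cast hN
  have hs0 : 0 < √(N : ℝ) := Real.sqrt_pos.mpr (by linarith)
  have hlog : 1 ≤ Real.log N := by
    rw [Real.le_log_iff_exp_le (by linarith)]
    exact le_trans (le_of_lt Real.exp_one_lt_d9) (by linarith)
  have hpow : (1 : ℝ) ≤ Real.log N ^ A := one_le_pow₀ hlog
  have hdiv : √(N : ℝ) / Real.log N ^ A ≤ √(N : ℝ) := div_le_self hs0.le hpow
  have h4 := hx (4 * √(N : ℝ)) (by positivity) (by push_cast; exact le_rfl)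
  have h1 := hx (√(N : ℝ)) hs0.le (by push_cast; linarith)
  have hSS := (hs N (by omega)).1
  have h4' := (abs_le.mp (h4.trans hdiv)).1
  have h1' := (abs_le.mp (h1.trans hdiv)).2
  -- the two sums are equal
  have hEq : RN N (4 * √(N : ℝ)) ≤ RN N (√(N : ℝ)) := by
    unfold RN
    refine Finset.sum_le_sum_of_subset_of_nonneg ?_
      (fun p _ _ => mul_nonneg (Real.log_natCast_nonneg _) (Real.log_natCast_nonneg _))
    intro p hp
    rw [Finset.mem_filter, Finset.mem_Icc] at hp ⊢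
    obtain ⟨⟨hp1, hp2⟩, hpp, hpN, hNp⟩ := hp
    refine ⟨⟨hp1, ?_⟩, hpp, hpN, hNp⟩
    by_contra hlt
    push Not at hlt
    have hlt' : √(N : ℝ) < p := (Nat.floor_lt hs0.le).mp hlt
    have hle : (p : ℝ) ≤ 4 * √(N : ℝ) := (Nat.le_floor_iff (by positivity)).mp hp2
    rcases lt_or_eq_of_le hle with h | h
    · exact hcon p hpp hlt' h hNp
    · -- `p = 4 √N` is impossible
      have h2 : (p : ℝ) ^ 2 = 16 * N := by
        rw [h, mul_pow, Real.sq_sqrt (by linarith)]; norm_num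
      have h3 : p ^ 2 = 16 * N := by exact_mod_cast h2
      have h4 : 2 ∣ p ^ 2 := by rw [h3]; exact ⟨8 * N, by ring⟩
      have h5 : 2 ∣ p := Nat.Prime.dvd_of_dvd_pow Nat.prime_two h4
      have h6 : p = 2 := ((Nat.prime_dvd_prime_iff_eq Nat.prime_two hpp).mp h5).symm
      rw [h6] at h3
      omega
  nlinarith [mul_le_mul_of_nonneg_right hSS hs0.le]

/-- the corollary -/
def StCor : Prop := ∀ A : ℕ, ∃ C : ℝ, ∀ X : ℕ, 2 ≤ X →
  ({N : ℕ | 4 < N ∧ N ≤ X ∧ Even N ∧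
      ¬ ∃ p : ℕ, p.Prime ∧ √(N : ℝ) < p ∧ (p : ℝ) < 4 * √(N : ℝ) ∧ (N - p).Prime}.ncard : ℝ) ≤
    C * X / Real.log X ^ A

theorem hCOR (h : StFn3) (hs : StSsa) : StCor := by
  classical
  intro A
  obtain ⟨C, hC⟩ := h A 4
  refine ⟨C, fun X hX => le_trans ?_ (hC X hX)⟩
  rw [← Set.ncard_coe_finset]
  apply Nat.cast_le.mpr
  apply Set.ncard_le_ncard _ (Finset.finite_toSet _)
  rintro N ⟨h1, h2, h3, h4⟩
  rw [Finset.mem_coe]
  unfold Exc
  rw [Finset.mem_filter, Finset.mem_Icc]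
  refine ⟨⟨by omega, h2⟩, h3, ?_⟩
  by_contra hx
  exact h4 (cor_aux hs A N h1 hx)

end Pool.Agent.Helper23.GK
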