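import Pool.Agent.Helper23.GK.M_COR

/-!
# Project GK: the final statement
-/

set_option autoImplicit false

namespace Pool.Agent.Helper23.GK

open Finset

/-- the final statement -/
def StFinal : Prop := ∀ A K : ℕ, ∃ C : ℝ, ∀ X : ℕ, 2 ≤ X →
    ({N : ℕ | 4 < N ∧ N ≤ X ∧ Even N ∧
      ¬ ((∃ p : ℕ, p.Prime ∧ √(N : ℝ) < p ∧ (p : ℝ) < 4 * √(N : ℝ) ∧ (N - p).Prime) ∧
        ∀ y : ℝ, 0 ≤ y → y ≤ K * √(N : ℝ) →
          |RN N y - SS N * y| ≤ √(N : ℝ) / Real.log N ^ A)}.ncard : ℝ) ≤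
      C * X / Real.log X ^ A

theorem hFIN (h : StFn3) (hs : StSsa) : StFinal := by
  classical
  intro A K
  obtain ⟨C, hC⟩ := h A (max K 4)
  refine ⟨C, fun X hX => le_trans ?_ (hC X hX)⟩
  rw [← Set.ncard_coe_finset]
  apply Nat.cast_le.mpr
  apply Set.ncard_le_ncard _ (Finset.finite_toSet _)
  rintro N ⟨h1, h2, h3, h4⟩
  rw [Finset.mem_coe]
  unfold Exc
  rw [Finset.mem_filter, Finset.mem_Icc]
  refine ⟨⟨by omega, h2⟩, h3, ?_⟩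
  by_contra hx
  apply h4
  have hs0 : 0 ≤ √(N : ℝ) := Real.sqrt_nonneg _
  have hmul : ∀ a : ℕ, a ≤ max K 4 → ∀ y : ℝ, y ≤ a * √(N : ℝ) →
      y ≤ ((max K 4 : ℕ) : ℝ) * √(N : ℝ) := by
    intro a ha y hy
    exact hy.trans (mul_le_mul_of_nonneg_right (by exact_mod_cast ha) hs0)
  refine ⟨cor_aux hs A N h1 ?_, ?_⟩
  · rintro ⟨y, hy0, hy1, hy2⟩
    exact hx ⟨y, hy0, hmul 4 (le_max_right _ _) y hy1, hy2⟩
  · intro y hy0 hy1
    by_contra hy2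
    push Not at hy2
    exact hx ⟨y, hy0, hmul K (le_max_left _ _) y hy1, hy2⟩

end Pool.Agent.Helper23.GK
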