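import Pool.Agent.Helper23.GK.Defs

/-!
# Project GK: statements, part A (Vinogradov's mean value theorem, crude form with explicit
dependence on the degree)

Each statement is a `Prop`; the docstring contains a complete proof. A module proves
`theorem hX (dependencies) : StX`.
-/

set_option autoImplicit false

namespace Pool.Agent.Helper23.GK

open Finset

/-- LIN (Linnik's lemma). Let `p > k` be prime. In an interval of `p^k` consecutive integers there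
are at most `k! p^{k(k-1)/2}` tuples `x_1, ..., x_k`, pairwise incongruent mod `p`, with
`∑ x_i^j ≡ h_j (mod p^j)` for `1 ≤ j ≤ k`.

Proof. The residues `c_j = ∑ x_i^j mod p^k` lie in the class `h_j + p^j ℤ / p^k`, so there are
`p^{k-j}` possible values of `c_j` and at most `∏_j p^{k-j} = p^{k(k-1)/2}` possible vectors `c`.
Fix `c`; we show that at most `k!` tuples `x` have this vector. If `x, y` both have it then modulo
`p` all power sums of degree `1..k` agree; as `p > k`, Newton's identities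
(`MvPolynomial.mul_esymm_eq_sum`) give equal elementary symmetric functions in `ZMod p`, hence
`∏ (T - x_i) = ∏ (T - y_i)`, so `y mod p` is a rearrangement of `x mod p`: at most `k!` residue
vectors mod `p`. Finally `x ≡ y (mod p)` (componentwise) implies `x ≡ y (mod p^r)` for all
`r ≤ k` by induction: write `x_i = y_i + p^r z_i`, `1 ≤ r < k`; modulo `p^{r+1}`,
`x_i^j ≡ y_i^j + j p^r z_i y_i^{j-1}` (as `2r ≥ r+1`), so `∑_i j y_i^{j-1} z_i ≡ 0 (mod p)` for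
`1 ≤ j ≤ k`, `j` is invertible mod `p`, the Vandermonde matrix `(y_i^{j-1})` is invertible mod `p`
(the `y_i` are distinct mod `p`), so `z ≡ 0`. As all `x_i, y_i` lie in an interval of length
`p^k`, `x = y`. (Adding a constant to the interval: work in `ℤ`.) -/
def StLin : Prop := ∀ (k p : ℕ) (a : ℤ) (h : ℕ → ℤ), 1 ≤ k → p.Prime → k < p →
  Set.ncard {x : Fin k → ℤ | (∀ i, a ≤ x i ∧ x i < a + (p : ℤ) ^ k) ∧
    (∀ i j, i ≠ j → ¬ (p : ℤ) ∣ x i - x j) ∧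
    ∀ j ∈ Icc 1 k, (p : ℤ) ^ j ∣ ∑ i, x i ^ j - h j} ≤ k.factorial * p ^ (k * (k - 1) / 2)

/-- SHF (shifted systems). The number of pairs of `s`-tuples `x, y` from an interval of `Y ≤ X`
consecutive integers with `∑ x_i^j - ∑ y_i^j = h_j` for `1 ≤ j ≤ k` is at most `J(k, s, X)`.

Proof. (1) For `h = 0`: the system is translation invariant (binomial theorem and induction on `j`;
for `j = 0` both sums are `s`), so the number equals that for the interval `[1, Y]`, which is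
`J(k,s,Y) ≤ J(k,s,X)`. (2) For general `h` let `r(v)` be the number of `s`-tuples `x` with power sum
vector `v`; the number is `∑_v r(v) r(v - h) ≤ ∑_v r(v)^2` by Cauchy-Schwarz, i.e. at most the number
for `h = 0`. -/
def StShf : Prop := ∀ (k s X Y : ℕ) (a : ℤ) (h : ℕ → ℤ), Y ≤ X →
  Set.ncard {z : (Fin s → ℤ) × (Fin s → ℤ) | (∀ i, a ≤ z.1 i ∧ z.1 i < a + Y) ∧
    (∀ i, a ≤ z.2 i ∧ z.2 i < a + Y) ∧
    ∀ j ∈ Icc 1 k, ∑ i, z.1 i ^ j - ∑ i, z.2 i ^ j = h j} ≤ JJ k s X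

/-- COI (coincidences). Among the solutions of Vinogradov's system with `S` variables on each side,
those with `x_i = x_j` for two given indices `i ≠ j` number at most `J^{1 - 1/(2S)}`.

Proof. Choose `L` larger than `4 S X^k` and put `F(α) = ∑_{x ≤ X} e(∑_j α_j x^j / L)` for
`α ∈ (ℤ/L)^k` (indices `j = 1..k`), `E` the average over `α`. By orthogonality
`J = E |F|^{2S}`, also `E |F(2α)|^{2S} = J` (number of solutions of `2∑x^j ≡ 2∑y^j (mod L)`, both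
sides are `< L`), and the number in question is `E F(2α) F(α)^{S-2} conj(F(α))^S`, at most
`E |F(2α)| |F(α)|^{2S-2} · 1 ≤ (E|F(2α)|^{2S})^{1/2S} (E|F|^{2S})^{(2S-2)/2S}` by Hölder with `2S`
factors (`Finset.inner_le_nnorm_mul_nnorm`/`ENNReal.lintegral_prod_norm_pow_le` or repeated
Hölder). -/
def StCoi : Prop := ∀ (k S X : ℕ) (i j : Fin S), i ≠ j →
  (Set.ncard {z : (Fin S → ℕ) × (Fin S → ℕ) | (∀ l, z.1 l ∈ Icc 1 X) ∧ (∀ l, z.2 l ∈ Icc 1 X) ∧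
    z.1 i = z.1 j ∧ ∀ m ∈ Icc 1 k, ∑ l, z.1 l ^ m = ∑ l, z.2 l ^ m}) ^ (2 * S) ≤
    JJ k S X ^ (2 * S - 1)

/-- GPP (the step for one prime). If `p > k` is prime and `X ≤ p^k` then the solutions with
`x_1..x_k` pairwise incongruent mod `p` and `y_1..y_k` pairwise incongruent mod `p` number at most
`p^{2s} k! p^{k(k-1)/2} X^k J(k, s, ⌊X/p⌋ + 1)`.

Proof. Finite Fourier analysis as in COI (`L` large): with `G_p(α)` the sum over tuples
`(x_1..x_k)` from `[1,X]`, incongruent mod `p`, of `e(α · power sums)`, and `F = ∑_{a mod p} F_a`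
(split by `x ≡ a mod p`), `GG = E |G_p|^2 |F|^{2s} ≤ p^{2s-1} ∑_a E |G_p|^2 |F_a|^{2s}` for `s ≥ 1`
(Hölder: `|∑_{a} F_a|^{2s} ≤ p^{2s-1} ∑ |F_a|^{2s}`); for `s = 0` there is nothing to do (one term).
`E |G_p|^2 |F_a|^{2s}` is the number of `(x, u, y, v)` with `x, y` incongruent tuples,
`u, v ≡ a (mod p)` and `∑x^j + ∑u^j = ∑y^j + ∑v^j` (`1≤j≤k`). The system is translation invariant, so
`∑(x_i-a)^j + ∑(u_i-a)^j = ∑(y_i-a)^j + ∑(v_i-a)^j`; with `u_i = a + p u_i'`, `v_i = a + p v_i'`: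
`∑(x_i-a)^j - ∑(y_i-a)^j = p^j (∑ v_i'^j - ∑ u_i'^j)`. There are `X^k` choices of `y`; given `y`,
`x - a` satisfies `∑(x_i-a)^j ≡ h_j (mod p^j)` and lies in an interval of length `X ≤ p^k`: at most
`k! p^{k(k-1)/2}` choices (LIN). Given `x, y` the `u', v'` lie in the interval
`{u' : 1 ≤ a + p u' ≤ X}` of at most `⌊X/p⌋ + 1` integers and solve a shifted system: at most
`J(k,s,⌊X/p⌋+1)` choices (SHF). Sum over the `p` classes `a`. -/
def StGpp : Prop := ∀ (k s X p : ℕ), 1 ≤ k → p.Prime → k < p → X ≤ p ^ k →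
  GG k s X p ≤ p ^ (2 * s) * (k.factorial * p ^ (k * (k - 1) / 2)) * X ^ k * JJ k s (X / p + 1)

/-- STP (the recursion). `P` is a set of at least `k^3` primes `p > k` with `X ≤ p^k`.

Proof. Put `S = k + s` and split the variables of `JJ k (s+k) X` into the first `k` and the other `s`
(`Fin.append`). Solutions where `x_i = x_j` for some `i < j ≤ k` number at most
`(k(k-1)/2) J^{1-1/(2S)}` (COI), and the same for `y`; as `J ≥ X^S ≥ (4k^4)^S` (diagonal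
solutions) we have `J^{1/(2S)} ≥ 2 k^2`, so these are at most `k^2 J^{1-1/(2S)} ≤ J/2` solutions
in total. Hence `J ≤ 2 J'`, `J'` the number of solutions with `x_1..x_k` distinct and `y_1..y_k`
distinct. For such a solution `0 < |∏_{i<j}(x_i - x_j) ∏_{i<j}(y_i-y_j)| < X^{k(k-1)}` (for `k ≥ 2`).
If all `p ∈ P` divided this product, it would be divisible by `∏_{p∈P} p`, whose `k`-th power is at
least `X^{|P|} ≥ X^{k^3}`, so the product would be `≥ X^{k^2} ≥ X^{k(k-1)}`, a contradiction. So some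
`p ∈ P` does not divide it, i.e. the solution is counted by `GG k s X p`. Hence
`J' ≤ ∑_{p ∈ P} GG k s X p`; apply GPP. -/
def StStp : Prop := ∀ (k s X : ℕ) (P : Finset ℕ), 2 ≤ k → 4 * k ^ 4 ≤ X → k ^ 3 ≤ P.card →
  (∀ p ∈ P, p.Prime ∧ k < p ∧ X ≤ p ^ k) →
  JJ k (s + k) X ≤ 2 * ∑ p ∈ P,
    p ^ (2 * s) * (k.factorial * p ^ (k * (k - 1) / 2)) * X ^ k * JJ k s (X / p + 1)

/-- PRM: `k^3` primes in `(Y, 4Y]` as soon as `Y ≥ C k^6`.

Proof. Chebyshev: there are `≥ c Y / log Y` primes in `(Y, 4Y]` for `Y ≥ 2` (see e.g.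
`Pool.Agent.Helper90.MT` `cheb` or Mathlib's Chebyshev file), and `c Y / log Y ≥ Y^{1/2} ≥ k^3` for
`Y ≥ C k^6`. Choose a subset with exactly `k^3` elements. -/
def StPrm : Prop := ∃ C : ℕ, 1 ≤ C ∧ ∀ k Y : ℕ, 2 ≤ k → C * k ^ 6 ≤ Y →
  ∃ P : Finset ℕ, P.card = k ^ 3 ∧ ∀ p ∈ P, p.Prime ∧ Y < p ∧ p ≤ 4 * Y

/-- VMV (Vinogradov's mean value theorem, crude). 

Proof. Put `η_l = (k(k+1)/2) (1-1/k)^l`, `E_l = 2lk - k(k+1)/2 + η_l` (`E_0 = 0`, `E_l ≥ 0`,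
`E_l ≤ 2lk`, `E_{l+1} = E_l + 2k - η_l/k`). Claim: `J(k, lk, X) ≤ D_l X^{E_l}` for all `X ≥ 1`,
`0 ≤ l ≤ 6k`, with `D_0 = 1`, `D_{l+1} = 2 k^3 k! 2^{12k^2} 8^{k^2} D_l + X_0^{2(l+1)k}`,
`X_0 = (C k^6 + 2)^k + 4k^4`. `l = 0`: `J = 1`. Step: if `X < X_0` use `J(k,(l+1)k,X) ≤ X^{2(l+1)k}`
and `X^{E} ≥ 1`. If `X ≥ X_0` let `Y = ⌈X^{1/k}⌉`, so `X ≤ Y^k`, `C k^6 ≤ Y ≤ 2 X^{1/k}`, and let `P`
be the `k^3` primes of PRM: `k < Y < p ≤ 4Y ≤ 8 X^{1/k}`, `X ≤ p^k`. STP gives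
`J(k,(l+1)k,X) ≤ 2 ∑_p p^{2lk} k! p^{k(k-1)/2} X^k J(k,lk,⌊X/p⌋+1)`; `⌊X/p⌋+1 ≤ 2X/p` if `p ≤ X`
(true: `p ≤ 8X^{1/k} ≤ X` for `k ≥ 2`, `X ≥ X_0`), so `J(k,lk,⌊X/p⌋+1) ≤ D_l (2X/p)^{E_l}` and
`p^{2lk - E_l} p^{k(k-1)/2} = p^{k(k+1)/2 - η_l + k(k-1)/2} = p^{k^2-η_l} ≤ (8X^{1/k})^{k^2-η_l}
≤ 8^{k^2} X^{k - η_l/k}`. Total `≤ 2 k^3 k! 2^{E_l} 8^{k^2} D_l X^{E_l + 2k - η_l/k}`. Finally
`log D_{6k} ≤ C' k^4` (very roughly: each step multiplies by `exp(O(k^2))` and `log X_0 = O(k log k)`,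
`log X_0^{2(l+1)k} = O(k^3 log k)`), and
`η_{6k} ≤ (k(k+1)/2) e^{-6} ≤ (3/4) k^2 e^{-6} ≤ k^2/500`. -/
def StVmv : Prop := ∃ C : ℝ, 0 < C ∧ ∀ k X : ℕ, 2 ≤ k → 1 ≤ X →
  (JJ k (6 * k ^ 2) X : ℝ) ≤ Real.exp (C * (k : ℝ) ^ 4) *
    (X : ℝ) ^ (12 * (k : ℝ) ^ 2 - (k : ℝ) * (k + 1) / 2 + (k : ℝ) ^ 2 / 500)

end Pool.Agent.Helper23.GK
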