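import Pool.Agent.Helper23.GK.StA

/-!
# Project GK: statements, part B (exponential sums over `n^{-it}`) and part C (growth of `L(s, χ)`)
-/

set_option autoImplicit false

namespace Pool.Agent.Helper23.GK

open Finset ArithmeticFunction
open Pool.Agent.Helper48.BK (ex th Sx Apx)
open Pool.Agent.Helper2.MR (ch)

/-! ### B: exponential sums -/

/-- HOL (double Hölder). With `U_j = s M^j`: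
`|∑_{x,y ≤ M} e(∑_j a_j x^j y^j)|^{4s²} ≤ M^{8s²-4s} J(k,s,M)² ∏_j W(a_j, U_j)`.

Proof. Let `S` be the double sum. Hölder in `x`: `|S|^{2s} ≤ M^{2s-1} ∑_x |∑_y e(∑ a_j x^j y^j)|^{2s}`
and `|∑_y ...|^{2s} = ∑_v R(v) e(∑_j a_j v_j x^j)` where `R(v)` is the number of pairs of `s`-tuples
`(y, y')` from `[1,M]` with `∑ y_i^j - ∑ y_i'^j = v_j` (`1 ≤ j ≤ k`); `R(v) = 0` unless
`|v_j| ≤ U_j` for all `j`; `R(v) ≤ R(0) = J := JJ k s M` (SHF) and `∑_v R(v) = M^{2s}`. So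
`|S|^{2s} ≤ M^{2s-1} ∑_v R(v) |T(v)|`, `T(v) = ∑_{x ≤ M} e(∑_j a_j v_j x^j)`, `v` in the box
`B = {|v_j| ≤ U_j}`. Hölder twice: `(∑ R|T|)^{2s} ≤ (∑ R)^{2s-2} (∑ R²)(∑_{v∈B} |T|^{2s})`,
`∑ R² ≤ J M^{2s}`, and
`∑_{v∈B}|T(v)|^{2s} = ∑_{v∈B} ∑_u R(u) e(∑_j a_j v_j u_j) ≤ J ∑_{u∈B} |∑_{v∈B} e(∑ a_j u_j v_j)|
= J ∏_j W(a_j, U_j)`. Altogether
`|S|^{4s²} ≤ M^{2s(2s-1)} M^{2s(2s-2)} J M^{2s} J ∏ W_j = M^{8s²-4s} J² ∏ W_j`. -/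
def StHol : Prop := ∀ (k s M : ℕ) (a : ℕ → ℝ), 1 ≤ s →
  ‖∑ x ∈ Icc 1 M, ∑ y ∈ Icc 1 M, ex (∑ j ∈ Icc 1 k, a j * ((x : ℝ) ^ j * (y : ℝ) ^ j))‖ ^ (4 * s ^ 2) ≤
    (M : ℝ) ^ (8 * s ^ 2 - 4 * s) * (JJ k s M : ℝ) ^ 2 * ∏ j ∈ Icc 1 k, WU (a j) (s * M ^ j)

/-- WSU: bounds for `W(a, U)`. The first is trivial. For the second: for `u ≠ 0`, `θ = a u`,
`|θ| ≤ 1/2`, the geometric sum `∑_{|v| ≤ U} e(θ v)` is at most `1/|sin πθ| ≤ 1/(2|θ|)` in absolute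
value; `u = 0` contributes `2U + 1 ≤ 3U`; `2 ∑_{u=1}^U 1/(2|a|u) ≤ (1 + log U)/|a|`. -/
def StWsu : Prop := (∀ (a : ℝ) (U : ℕ), WU a U ≤ (2 * U + 1) ^ 2) ∧
  ∀ (a : ℝ) (U : ℕ), 1 ≤ U → 0 < |a| → |a| * U ≤ 1 / 2 → WU a U ≤ 3 * U + (1 + Real.log U) / |a|

/-- TAY: Taylor expansion of `(1+z)^{-it}`. For `0 ≤ z ≤ 1` the alternating series gives
`log(1+z) = ∑_{j ≤ k} (-1)^{j-1} z^j / j + R`, `|R| ≤ z^{k+1}/(k+1)`; and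
`|e^{ia} - e^{ib}| ≤ |a - b|`. -/
def StTay : Prop := ∀ (k : ℕ) (t z : ℝ), 0 ≤ z → z ≤ 1 →
  ‖Complex.exp (((-(t * Real.log (1 + z)) : ℝ) : ℂ) * Complex.I) -
    Complex.exp (((∑ j ∈ Icc 1 k, (-1 : ℝ) ^ j * t * z ^ j / j : ℝ) : ℂ) * Complex.I)‖ ≤
    |t| * z ^ (k + 1)

/-- VIN (Vinogradov's estimate).

Proof. Let `lam = log|t|/log N ≥ 1/2`, `k = ⌈5 lam⌉ + 1` (so `4 ≤ k`, `5 lam + 1 ≤ k ≤ 5 lam + 2 ≤ 9 lam`),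
`s = 6k²`, `M = ⌊N^{2/5}⌋ ≥ N^{2/5}/2`. If `N^{lam/5} < 6k²` then `N ≤ (C(1+lam)^{10})^{1/lam}` is bounded
by an absolute constant and the claim is trivial with a large `C` (choose `c ≤ 1/5`). So let
`N^{lam/5} ≥ 6k² = s`. Shifting `n` by `xy ≤ M²` changes the sum by at most `2xy`, so
`|∑_n (n+θ)^{-it}| ≤ M^{-2} ∑_n |∑_{x,y ≤ M} (n+θ+xy)^{-it}| + 2M²`.
By TAY with `z = xy/(n+θ) ≤ M²/N ≤ N^{-1/5}` (the factor `(n+θ)^{-it}` has modulus one) the inner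
double sum is `∑_{x,y} e(∑_{j≤k} a_j x^j y^j) + O(M² |t| N^{-(k+1)/5})`, `a_j = (-1)^j t/(2π j (n+θ)^j)`,
and `|t| N^{-(k+1)/5} ≤ N^{-2/5}`. HOL and VMV (`s = 6k²`, exponent
`E = 12k² - k(k+1)/2 + k²/500`): `|S|^{4s²} ≤ M^{8s²-4s} e^{2C_0k⁴} M^{2E} ∏ W_j
= M^{8s²} e^{2C_0k⁴} M^{k²/250} ∏_j (W_j M^{-2j})` since `4s = 24k²` and `∑_j 2j = k(k+1)`.
Always `W_j M^{-2j} ≤ 9s²`. For the integers `j ∈ [2 lam, 4 lam]` (there are at least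
`⌊2 lam⌋ ≥ lam` of them, all `≤ k`): `|a_j| U_j ≤ s N^{lam-j} N^{2j/5}/(2π) ≤ s N^{-lam/5}/(2π) ≤ 1/2`,
so by WSU `W_j ≤ 3U_j + (1+log U_j)/|a_j|`, with `3 U_j M^{-2j} = 3 s M^{-j} ≤ 3 s 2^k N^{-4 lam/5}`
and `(1+log U_j) M^{-2j}/|a_j| ≤ (1 + log s + k log N) 2πk 3^k N^{j} N^{-lam} 4^k N^{-4j/5}
≤ e^{Ck}(1+log N) N^{-lam/5}` (as `j ≤ 4 lam`). Hence
`|S|^{4s²} ≤ M^{8s²} e^{C k⁴} (1+log N)^k N^{k²/625} N^{-lam²/5}`, and `k² ≤ 81 lam²`,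
`81/625 ≤ 0.13`, so the last two factors are at most `N^{-0.07 lam²}`. Take `4s² = 144k⁴`-th roots:
`|S| ≤ C M² (1+log N) N^{-0.07 lam²/(144 k⁴)}` and `lam²/k⁴ ≥ 1/(81k²) ≥ c'/(1+lam)²`. Add the error
terms `N · N^{-2/5}` and `2M² ≤ 2N^{4/5}`. -/
def StVin : Prop := ∃ C c : ℝ, 0 < C ∧ 0 < c ∧ c ≤ 1 / 5 ∧ ∀ (N N' : ℕ) (t θ : ℝ), 2 ≤ N →
  N ≤ N' → N' ≤ 2 * N → 0 ≤ θ → θ ≤ 1 → (N : ℝ) ^ (1 / 2 : ℝ) ≤ |t| →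
  ‖∑ n ∈ Ioc N N', cs t θ n‖ ≤
    C * Real.log (N + 1) * (N : ℝ) ^ (1 - c / (1 + Real.log |t| / Real.log N) ^ 2)

/-- EMS (comparison with the integral). Proof. `f(x) = (x+θ)^{-it}`,
`|∑_{N<n≤N'} f(n) - ∫_N^{N'} f| ≤ ∫_N^{N'} |f'| + ... ≤ |t| ∫_N^{2N} dx/x ≤ |t|`, and the integral is
`[(x+θ)^{1-it}/(1-it)] ≤ 6N/|t|`. -/
def StEms : Prop := ∃ C : ℝ, 0 < C ∧ ∀ (N N' : ℕ) (t θ : ℝ), 1 ≤ N → N ≤ N' → N' ≤ 2 * N →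
  0 ≤ θ → θ ≤ 1 → 1 ≤ |t| → ‖∑ n ∈ Ioc N N', cs t θ n‖ ≤ C * (N / |t| + |t|)

/-- RES (reduction of residue classes). For `1 ≤ q`, `N ≤ N' ≤ 2N` and a residue class `u` the sum
of `n^{-it}` over `N < n ≤ N'`, `n ≡ u (mod q)` is, up to a factor of modulus one and an error of at
most `4`, a sum `∑_{m0 < m ≤ m1} (m+θ)^{-it}` with `0 ≤ θ ≤ 1`, `m0 ≤ m1 ≤ 2 m0`, `m0 ≤ N/q` and
`N/q ≤ 2 m0 + 2` (`n = q m + r`, `0 ≤ r < q`, `θ = r/q`; drop at most `4` terms). -/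
def StRes : Prop := ∀ (N N' q u : ℕ) (t : ℝ), N ≤ N' → N' ≤ 2 * N → 1 ≤ q →
  ∃ (m0 m1 : ℕ) (θ : ℝ), 0 ≤ θ ∧ θ ≤ 1 ∧ m0 ≤ m1 ∧ m1 ≤ 2 * m0 ∧ q * m0 ≤ N ∧
    N ≤ 2 * q * (m0 + 1) ∧
    ‖∑ n ∈ (Ioc N N').filter (fun n => n ≡ u [MOD q]), ch t n‖ ≤ ‖∑ m ∈ Ioc m0 m1, cs t θ m‖ + 4

/-- ES1 (residue classes, `N ≥ exp((log(|t|+3))^{9/10})`).

Proof. If `q > N^{1/2}` the trivial bound `N/q + 1 ≤ 2 N^{1/2}...` is at most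
`q N exp(-el^{1/2})` up to a constant since `q ≥ N^{1/2} ≥ exp(el^{9/10}/2)`. Otherwise use RES with
`m0 ≥ N/(2q) - 1`, `m0 ≥ c N^{1/2}` (bounded `N` trivial). If `|t| < m0^{1/2}`: EMS gives
`C(m0/|t| + m0^{1/2})` and `m0^{-1/2} ≤ C exp(-el^{1/2})`. If `|t| ≥ m0^{1/2}`: VIN with
`lam = log|t|/log m0 ≤ 3 el^{1/10}` gives
`C log(m0+1) m0 exp(-c log m0 /(1+3el^{1/10})²)` and
`log m0 ≥ 0.4 el^{9/10}`, so this is `≤ C' m0 exp(-el^{1/2})` (the exponent is `≥ c' el^{7/10}`, and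
`log(m0+1) exp(-(c/2) log m0/(1+3el^{1/10})²) ≤ C el^{1/5}`). -/
def StEs1 : Prop := ∃ C : ℝ, 0 < C ∧ ∀ (N N' q u : ℕ) (t : ℝ), N ≤ N' → N' ≤ 2 * N → 1 ≤ q →
  1 ≤ |t| → Real.exp (vv t) ≤ N →
  ‖∑ n ∈ (Ioc N N').filter (fun n => n ≡ u [MOD q]), ch t n‖ ≤
    C * q * N * (1 / |t| + Real.exp (-(el t) ^ (1 / 2 : ℝ)))

/-- ES2 (residue classes, `|t| ≤ X²`, `N ≥ X^{1/6}`): power saving. Proof as ES1 with `lam` bounded: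
if `q > N^{1/2}` trivial; else `m0 ≥ c X^{1/12}`, `lam ≤ 25`. -/
def StEs2 : Prop := ∃ C c : ℝ, 0 < C ∧ 0 < c ∧ ∀ (X : ℝ) (N N' q u : ℕ) (t : ℝ), 2 ≤ X →
  X ^ (1 / 6 : ℝ) ≤ N → N ≤ N' → N' ≤ 2 * N → 1 ≤ q → 1 ≤ |t| → |t| ≤ X ^ 2 →
  ‖∑ n ∈ (Ioc N N').filter (fun n => n ≡ u [MOD q]), ch t n‖ ≤ C * q * N * (1 / |t| + X ^ (-c))

/-- ES3 (residue classes, from EMS and RES). -/
def StEs3 : Prop := ∃ C : ℝ, 0 < C ∧ ∀ (N N' q u : ℕ) (t : ℝ), N ≤ N' → N' ≤ 2 * N → 1 ≤ q →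
  1 ≤ |t| → ‖∑ n ∈ (Ioc N N').filter (fun n => n ≡ u [MOD q]), ch t n‖ ≤ C * (N / |t| + |t|)

/-! ### C: growth of `L(s, χ)` -/

/-- AP1: approximation of `L(s, χ)`, `χ ≠ 1`. For `Re s > 1` partial summation gives
`L(s,χ) - ∑_{n≤N} χ(n)n^{-s} = -S(N)N^{-s} + s ∫_N^∞ S(u) u^{-s-1} du` with `|S(u)| ≤ q`; both sides are
analytic for `Re s > 0` (see `Pool.Agent.Helper48.BK` `eq_Ldisc`); the right side is at most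
`q N^{-σ}(1 + |s|/σ) ≤ 4 q |s| N^{-σ}` for `σ ≥ 1/2`. -/
def StAp1 : Prop := ∀ (q : ℕ) [NeZero q] (χ : DirichletCharacter ℂ q) (s : ℂ) (N : ℕ), χ ≠ 1 →
  1 / 2 ≤ s.re → 1 ≤ N →
  ‖DirichletCharacter.LFunction χ s - ∑ n ∈ Icc 1 N, χ (n : ZMod q) * (n : ℂ) ^ (-s)‖ ≤
    4 * q * ‖s‖ * (N : ℝ) ^ (-s.re)

/-- AP2: approximation of `ζ(s)`: for `Re s ≥ 1/2`, `s ≠ 1`,
`ζ(s) = ∑_{n≤N} n^{-s} + N^{1-s}/(s-1) - s ∫_N^∞ {u} u^{-s-1} du` (true for `Re s > 1`, both sides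
analytic for `Re s > 0`, `s ≠ 1`). -/
def StAp2 : Prop := ∀ (s : ℂ) (N : ℕ), s ≠ 1 → 1 / 2 ≤ s.re → 1 ≤ N →
  ‖riemannZeta s - ∑ n ∈ Icc 1 N, (n : ℂ) ^ (-s) - (N : ℂ) ^ (1 - s) / (s - 1)‖ ≤
    2 * ‖s‖ * (N : ℝ) ^ (-s.re)

/-- GRO (growth near `σ = 1`).

Proof. Write `el = el t`, `V = vv t`; note `el ≥ log 5`, so `1 - 1/(2V) ≥ 1/2`. Put
`N0 = ⌈(q(|t|+3))^2⌉`. For `χ` nonprincipal AP1 with `N0` gives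
`L = ∑_{n≤N0} χ(n)n^{-s} + O(1)` (`|s| ≤ |t|+3`, `N0^{-σ} ≤ N0^{-1/2}`); for `ζ` AP2, the extra term is
`N0^{1-σ}/|t| = O(1)` because `N0^{1/(2V)} ≤ exp(C el^{1/10})`, which is `≤ C |t|`. The sum over
`n ≤ exp(V)+1` is at most `e^{1/2}·2·∑ 1/n ≤ C(1+V)`. The rest is cut into dyadic pieces `(N, N']`,
`exp V ≤ N`, `N' ≤ 2N`, at most `C(el + log q) ≤ C el` of them; partial summation and ES1 on each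
residue class: each is at most `C q · q N^{1-σ}(1/|t| + exp(-el^{1/2}))` and
`N^{1-σ} ≤ exp(C el^{1/10})`, so it is `≤ C q²`. The principal character mod `q`:
`L(s,χ_0) = ζ(s) ∏_{p∣q}(1-p^{-s})` and `∏ ≤ 2^{ω(q)} ≤ 2q`. -/
def StGro : Prop := ∃ C : ℝ, 1 ≤ C ∧ ∀ (q : ℕ) [NeZero q] (χ : DirichletCharacter ℂ q) (σ t : ℝ),
  2 ≤ |t| → Real.log q ≤ el t → 1 - 1 / (2 * vv t) ≤ σ → σ ≤ 3 →
  ‖DirichletCharacter.LFunction χ (σ + t * Complex.I)‖ ≤ C * q ^ 3 * el t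

end Pool.Agent.Helper23.GK
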