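import Pool.Agent.Helper23.GK.StB

/-!
# Project GK: statements, part D (zero-free region of Vinogradov type, `1/L`) and part E (sums of
`μ(n) χ(n) n^{-it}`)
-/

set_option autoImplicit false

namespace Pool.Agent.Helper23.GK

open Finset ArithmeticFunction
open Pool.Agent.Helper2.MR (ch)

/-! ### D: zero-free region -/

/-- LAN (Landau's lemma, at the centre of the disc).

Proof. Let `ρ_1, ..., ρ_m` be the zeros of `f` in `|s - s0| ≤ r/2` with multiplicity (finite, `f` is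
not identically zero; Mathlib: `MeromorphicOn.extract_zeros_poles` or
`AnalyticOnNhd`/`CanonicalDecomposition`), `g = f / ∏ (s - ρ_i)`, analytic on the disc
`|s - s0| < 2r`, without zeros in `|s - s0| ≤ r/2`. On `|s - s0| = r`: `|s - ρ_i| ≥ r/2 ≥ |s0 - ρ_i|`, so
`|g(s)/g(s0)| ≤ |f(s)/f(s0)| ≤ e^M`, also inside by the maximum principle. On the ball of radius
`r/2` write `g/g(s0) = e^h`, `h` analytic, `h(s0) = 0`, `Re h ≤ M`; Borel-Carathéodory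
(`Complex.borelCaratheodory_zero`) gives `|h(s)| ≤ 2M|s-s0|/(r/2 - |s-s0|)`, hence
`|h'(s0)| ≤ 4M/r`. As `f'/f(s0) = ∑ 1/(s0-ρ_i) + h'(s0)` and `Re 1/(s0-ρ_i) > 0` (all zeros have
real part `< Re s0`), both claims follow (`C = 4`). -/
def StLan : Prop := ∃ C : ℝ, 0 < C ∧ ∀ (f : ℂ → ℂ) (s0 : ℂ) (r M : ℝ), 0 < r → 1 ≤ M →
  DifferentiableOn ℂ f (Metric.ball s0 (2 * r)) → f s0 ≠ 0 →
  (∀ s ∈ Metric.closedBall s0 r, ‖f s‖ ≤ Real.exp M * ‖f s0‖) →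
  (∀ s ∈ Metric.closedBall s0 r, f s = 0 → s.re < s0.re) →
  (-(deriv f s0 / f s0)).re ≤ C * M / r ∧
  ∀ ρ : ℂ, f ρ = 0 → ‖ρ - s0‖ ≤ r / 2 →
    (-(deriv f s0 / f s0)).re ≤ C * M / r - (1 / (s0 - ρ)).re

/-- BCA (bounding `1/f` in a zero-free disc). If `f` has no zeros in the ball `|s - s0| < r` and
`|f| ≤ e^M |f(s0)|` there then `|1/f(s)| ≤ e^{2M θ/(1-θ)} / |f(s0)|` for `|s - s0| ≤ θ r`, `0 ≤ θ < 1`.
Proof: `f/f(s0) = e^h`, `h(s0) = 0`, `Re h ≤ M`, Borel-Carathéodory. -/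
def StBca : Prop := ∀ (f : ℂ → ℂ) (s0 : ℂ) (r M θ : ℝ), 0 < r → 0 < M → 0 ≤ θ → θ < 1 →
  DifferentiableOn ℂ f (Metric.ball s0 r) → (∀ s ∈ Metric.ball s0 r, f s ≠ 0) →
  (∀ s ∈ Metric.ball s0 r, ‖f s‖ ≤ Real.exp M * ‖f s0‖) →
  ∀ s : ℂ, ‖s - s0‖ ≤ θ * r → ‖(f s)⁻¹‖ ≤ Real.exp (2 * M * θ / (1 - θ)) * ‖(f s0)⁻¹‖

/-- TFO (3-4-1 for logarithmic derivatives). For `σ > 1`, `-L'/L(s,χ) = ∑ Λ(n)χ(n)n^{-s}` (Mathlib,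
`DirichletCharacter.LSeries_twist_vonMangoldt_eq` or similar), and
`3 + 4 cos φ + cos 2φ ≥ 0` with `e^{iφ} = χ(n) n^{-it}`; `χ_0 = 1`. Second part:
`-L'/L(σ,χ_0) ≤ ∑ Λ(n) n^{-σ} = -ζ'/ζ(σ) ≤ 1/(σ-1) + C`. Third part: `|L(s,χ)|^{-1} ≤ ζ(σ) ≤ σ/(σ-1)`. -/
def StTfo : Prop := (∀ (q : ℕ) [NeZero q] (χ : DirichletCharacter ℂ q) (σ t : ℝ), 1 < σ →
    let D := fun (ψ : DirichletCharacter ℂ q) (s : ℂ) =>
      -(deriv (DirichletCharacter.LFunction ψ) s / DirichletCharacter.LFunction ψ s)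
    0 ≤ 3 * (D 1 σ).re + 4 * (D χ (σ + t * Complex.I)).re + (D (χ ^ 2) (σ + 2 * t * Complex.I)).re) ∧
  (∃ C : ℝ, 0 < C ∧ ∀ (q : ℕ) [NeZero q] (σ : ℝ), 1 < σ → σ ≤ 2 →
    (-(deriv (DirichletCharacter.LFunction (1 : DirichletCharacter ℂ q)) σ /
      DirichletCharacter.LFunction (1 : DirichletCharacter ℂ q) σ)).re ≤ 1 / (σ - 1) + C) ∧
  (∀ (q : ℕ) [NeZero q] (χ : DirichletCharacter ℂ q) (s : ℂ), 1 < s.re →
    DirichletCharacter.LFunction χ s ≠ 0 ∧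
    ‖(DirichletCharacter.LFunction χ s)⁻¹‖ ≤ s.re / (s.re - 1))

/-- ZFR (zero-free region).

Proof. Let `ρ = β + iγ` be a zero of `L(s,χ)`, `|γ| ≥ 10`, `log q ≤ el γ - 1`. `V = vv γ`, `M1 = log(3 q el γ) ≥ 1`,
`W = V M1 = wq q γ`. Take `0 < a ≤ 1/100` to be chosen, `σ0 = 1 + a/W`, `s0 = σ0 + iγ`, `r = 1/(16 V)`.
The disc `|s - s0| ≤ 2r` lies in `σ ≥ 1 - 1/(8V) ≥ 1 - 1/(2 vv t')` for all its heights `t'`
(`vv t' ≤ 2 vv γ`, `log q ≤ el t'`), so by GRO `|L(s,χ)| ≤ C q³ el` there, also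
for `χ²` around `σ0 + 2iγ` (GRO is for all characters, no pole since `|t'| ≥ 2`); by TFO
`|L(s0,χ)|^{-1} ≤ σ0/(σ0-1) ≤ 2W/a`. So `e^M` with `M = C'(M1 + log(1/a))` is admissible in LAN
(the functions are entire or have a pole only at `1`, which is outside; zeros have real part `≤ 1 < σ0`
by nonvanishing on `Re s ≥ 1`). If
`1 - β ≤ c/W` with `a + c ≤ 1/32` then `|ρ - s0| = (a/W) + 1 - β ≤ r/2`. LAN and TFO:
`0 ≤ 3(W/a + C) + 4(C'' W (1 + log(1/a)) - 1/(a/W + 1 - β)) + C'' W(1+log(1/a))`, i.e.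
`4/(a + c) ≤ 3/a + C'''(1 + log(1/a))`, impossible for suitable small `a` and `c = a/10`. -/
def StZfr : Prop := ∃ c : ℝ, 0 < c ∧ c ≤ 1 ∧ ∀ (q : ℕ) [NeZero q] (χ : DirichletCharacter ℂ q)
  (σ t : ℝ), 10 ≤ |t| → Real.log q ≤ el t - 1 → 1 - c / wq q t ≤ σ →
  DirichletCharacter.LFunction χ (σ + t * Complex.I) ≠ 0

/-- INV (bound for `1/L`).

Proof. With the constant `c0` of ZFR (valid also with a smaller constant). Given `|t| ≥ 20`,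
`log q ≤ el t - 2` and
`1 - c/W ≤ σ ≤ 2`, `W = wq q t`. If `σ ≥ 1 + c/W` use TFO: `|1/L| ≤ σ/(σ-1) ≤ 2W/c + 1`. Otherwise let
`s0 = 1 + c/W + it`, `r = 4c/W`; for `c` small the ball `|s - s0| < r` lies in the zero-free region for
all its heights `t'` (`|t'| ≥ 10`, `wq q t' ≤ 2 wq q t`, `log q ≤ el t' - 1`) and in the region of GRO, so
with `M = C log(3 q el t)`, BCA, `θ = 1/2`
(`|s - s0| ≤ 2c/W = r/2`): `|1/L(s)| ≤ e^{2M} (2W/c + 1) ≤ (3 q el t)^C`. -/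
def StInv : Prop := ∃ c : ℝ, 0 < c ∧ c ≤ 1 ∧ ∃ C : ℕ, ∀ (q : ℕ) [NeZero q]
  (χ : DirichletCharacter ℂ q) (σ t : ℝ), 20 ≤ |t| → Real.log q ≤ el t - 2 → 1 - c / wq q t ≤ σ →
  σ ≤ 2 → DirichletCharacter.LFunction χ (σ + t * Complex.I) ≠ 0 ∧
    ‖(DirichletCharacter.LFunction χ (σ + t * Complex.I))⁻¹‖ ≤ (3 * q * el t) ^ C

/-- MUK (derivatives of `1/L`).

Proof. For `Re s > 1`, `1/L(s,χ) = ∑ μ(n)χ(n)n^{-s}` and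
`∑ μ(n)χ(n)(log n)^k n^{-s} = (-1)^k (d/ds)^k (1/L)(s)` (Mathlib `LSeries_iteratedDeriv`). For
`1 < σ ≤ 3/2`, `|t| ≥ 30`, `log q ≤ el t - 3`: the closed disc of radius `ϱ = c/(4W)` around
`s = σ + it` lies in the region of INV (with `wq q t' ≤ 2 wq q t`), so Cauchy's estimate gives
`k! ϱ^{-k} sup|1/L| ≤ k! (4W/c)^k (3·2·q el t)^C`. For `3/2 < σ ≤ 2` the series is at most a constant
depending on `k` (and `wq ≥ 1`). -/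
def StMuk : Prop := ∃ C : ℕ, ∀ k : ℕ, ∃ C' : ℝ, 0 < C' ∧ ∀ (q : ℕ) [NeZero q]
  (χ : DirichletCharacter ℂ q) (σ t : ℝ), 30 ≤ |t| → Real.log q ≤ el t - 3 → 1 < σ → σ ≤ 2 →
  ‖LSeries (Mk χ k) (σ + t * Complex.I)‖ ≤ C' * wq q t ^ k * (3 * q * el t) ^ C

/-! ### E: sums of the Möbius function -/

/-- PER (Perron bound). Proof: `log⁺(x/n) = (1/2πi) ∫_{(σ)} (x/n)^z z^{-2} dz` (the library has the
Fourier form: `Pool.Agent.Helper90.MT` `perron` in `A4.lean`), sum over `n` with absolute convergence,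
`|z|^{-2} = 1/(σ²+y²) ≤ 1/(1+y²)`. (`‖LSeries f (σ+iy)‖` is bounded and continuous in `y`, so the
integral converges.) -/
def StPer : Prop := ∃ C : ℝ, 0 < C ∧ ∀ (f : ℕ → ℂ) (σ x : ℝ), 1 < σ → σ ≤ 2 → 1 ≤ x →
  LSeriesSummable f (σ : ℂ) →
  MeasureTheory.Integrable (fun y : ℝ => ‖LSeries f (σ + y * Complex.I)‖ / (1 + y ^ 2)) ∧
  ‖∑ n ∈ Ioc 0 ⌊x⌋₊, f n * ((Real.posLog (x / n) : ℝ) : ℂ)‖ ≤
    C * x ^ σ * ∫ y : ℝ, ‖LSeries f (σ + y * Complex.I)‖ / (1 + y ^ 2)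

/-- RML (removing the powers of the logarithm, with hypotheses only up to `N`): as the library's
`Pool.Agent.Helper90.MT.StA5` (file `A5.lean`), whose proof uses the hypothesis only for
`1 ≤ x ≤ N`. -/
def StRml : Prop := ∀ k : ℕ, ∃ C : ℝ, 0 < C ∧ ∀ (a : ℕ → ℂ) (B : ℝ) (N : ℕ), a 1 = 0 → 2 ≤ N →
  (∀ x : ℝ, 1 ≤ x → x ≤ N → ‖∑ n ∈ Ioc 0 ⌊x⌋₊, a n * ((Real.log n : ℝ) : ℂ) ^ k *
    ((Real.posLog (x / n) : ℝ) : ℂ)‖ ≤ B * x) →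
  ‖∑ n ∈ Ioc 0 N, a n * ((Real.posLog ((N : ℝ) / n) : ℝ) : ℂ)‖ ≤ C * B * N / Real.log N ^ k

/-- MOB (Möbius sums twisted by `χ(n) n^{-iτ}`).

Proof. Write `L = log X`. `f_k(n) = μ(n)χ(n)(log n)^k n^{-iτ}`, `LSeries f_k (σ+iy) = LSeries (Mk χ k) (σ + i(τ+y))`.
PER with `σ = 1 + 1/log x` (`x ≥ 3`; `σ = 2` for smaller `x`): for `|y| ≤ |τ|/2` MUK applies
(`|τ+y| ≥ |τ|/2 ≥ 30`, `log q ≤ el(τ+y) - 3` if `B1 ≥ B + 4`), with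
`wq q (τ+y) ≤ L^{0.95}` and `(3 q el)^C ≤ L^{(B+2)C}` for large `X`; for `|y| > |τ|/2` the trivial bound
`∑ (log n)^k n^{-σ} ≤ C_k (σ-1)^{-k-1} ≤ C_k (3L)^{k+1}` and `∫_{|y|>|τ|/2} dy/(1+y²) ≤ 4/|τ|`. So for all
`1 ≤ x ≤ 2N`: `|∑_{n≤x} f_k(n) log(x/n)| ≤ B_k x`, `B_k = C_k (L^{0.95k + (B+2)C} + L^{k+1}/|τ|)`.
RML (`a 1` replaced by `0`, an error `≤ log(2N)`) with `log N ≥ L/6`: for `N' ∈ [N, 2N]`
`|∑_{n≤N'} μχ(n)n^{-iτ} log(N'/n)| ≤ C_k N' (L^{-0.05k+(B+2)C} + L/|τ|) + 3L`. Choose `k` with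
`0.05k ≥ (B+2)C + 2A + 5` and `B1 ≥ 2A + 6 + B`. Finally `StUns` of `Helper48/BK`
(`Pool.Agent.Helper48.BK.hUns`) removes the weight. -/
def StMob : Prop := ∀ A B : ℕ, ∃ B1 X0 : ℕ, ∀ X : ℕ, X0 ≤ X → ∀ (q : ℕ) [NeZero q]
  (χ : DirichletCharacter ℂ q) (N : ℕ) (τ : ℝ), (q : ℝ) ≤ Real.log X ^ B →
  (X : ℝ) ^ (1 / 6 : ℝ) ≤ N → N ≤ X ^ 2 → Real.log X ^ B1 ≤ |τ| → |τ| ≤ (X : ℝ) ^ 2 →
  ‖∑ n ∈ Ioc 0 N, cmu χ n * ch τ n‖ ≤ N / Real.log X ^ A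

end Pool.Agent.Helper23.GK
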