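import Pool.Agent.Helper23.GK.StC

/-!
# Project GK: statements, part F (primes in almost all intervals of length about `√X`, in
arithmetic progressions). Throughout `L = log X`.
-/

set_option autoImplicit false

namespace Pool.Agent.Helper23.GK

open Finset ArithmeticFunction MeasureTheory
open Pool.Agent.Helper48.BK (ex th Sx Apx)
open Pool.Agent.Helper2.MR (ch)
open Pool.Agent.Helper15.AB (IsW)

/-- exponents of the dyadic blocks in the decomposition -/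
def EU (u : ℕ) : Finset (Fin 4 → ℕ) :=
  (Fintype.piFinset (fun _ : Fin 4 => range (2 * u + 1))).filter (fun e => e 0 ≤ u ∧ e 1 ≤ u)

/-- the quadruple sum over one tuple of blocks -/
noncomputable def Te (g : ℕ → ℂ) (e : Fin 4 → ℕ) : ℂ :=
  ∑ m1 ∈ blk2 (e 0), ∑ m2 ∈ blk2 (e 1), ∑ l1 ∈ blk2 (e 2), ∑ l2 ∈ blk2 (e 3),
    ((moebius m1 : ℤ) : ℂ) * ((moebius m2 : ℤ) : ℂ) * ((Real.log l1 : ℝ) : ℂ) *
      g (m1 * m2 * l1 * l2)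

/-- `∑ Λ(m) w(log(m/X)) χ(m) m^{-1-it}` -/
noncomputable def GA {q : ℕ} (w : ℝ → ℝ) (χ : DirichletCharacter ℂ q) (X : ℕ) (t : ℝ) : ℂ :=
  ∑ m ∈ Icc 1 (3 * X), ((Λ m * w (Real.log (m / X)) : ℝ) : ℂ) * χ (m : ZMod q) * ch t m / m

/-- `∑ g(m) m^{-1-it}` for the balanced weight `g = gw w X q u` -/
noncomputable def GB (w : ℝ → ℝ) (X q u : ℕ) (t : ℝ) : ℂ :=
  ∑ m ∈ Icc 1 (3 * X), ((gw w X q u m : ℝ) : ℂ) / m * ch t m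

/-- HB (Heath-Brown's identity with two factors, in dyadic blocks). `g n = 0` for `n > 4^u`.

Proof. Let `M = μ 1_{n ≤ U}`, `U = 2^u`, `R = μ - M` (supported on `n > U`). In the ring of
arithmetic functions, with `μ * 1 = δ` and `Λ = μ * log`:
`R*R*1*log = μ*μ*1*log - 2 μ*M*1*log + M*M*1*log = Λ - 2 M*log + M*M*1*log`, and `R*R*1*log`
vanishes on `n ≤ U² = 4^u`. So `Λ(n) = 2 (M*log)(n) - (M*M*log*1)(n)` for `1 ≤ n ≤ 4^u`. Multiply by `g`,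
sum, and split each variable into the blocks (`blk2 e`, `e ≤ u`, partition `[1, 2^u]`; `blk2 e`,
`e ≤ 2u`, partition `[1, 4^u]`). The first term is the part of the tuples with `e 1 = e 3 = 0`
(`m2 = l2 = 1`). -/
def StHb : Prop := ∀ (u : ℕ) (g : ℕ → ℂ), (∀ n, 4 ^ u < n → g n = 0) →
  ∑ n ∈ Icc 1 (4 ^ u), ((Λ n : ℝ) : ℂ) * g n =
    ∑ e ∈ EU u, (if e 1 = 0 ∧ e 3 = 0 then (1 : ℂ) else -1) * Te g e

/-- DEC (the decomposition of `GA`).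

Proof. `K` is the Fourier weight of the library (`Pool.Agent.Helper15.AB.StFO`, proved in
`M_FO.lean`) for `φ = w`: `w(v) = ∫ K(ξ) e^{iξv} dξ`. Apply HB with
`g(n) = w(log(n/X)) χ(n) ch t n / n` (`g n = 0` unless `X ≤ n ≤ eX < 3X ≤ 4^u`; set `g 0 = 0`). In
`Te g e` insert the integral for `w`: `ch t n e^{iξ log n} = ch (t-ξ) n` is completely
multiplicative, so `Te g e = ∫ K(ξ) e^{-iξ log X} PP χ e (t-ξ) dξ` for every tuple `e`. If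
`2^{∑e} < X` or `2^{∑e} > 64X` then `Te g e = 0`, because the products `n` satisfy
`2^{∑e - 4} ≤ n ≤ 2^{∑e}` and `w(log(n/X)) = 0` unless `X ≤ n ≤ eX`. -/
def StDec : Prop := ∀ w, IsW w → ∃ (K : ℝ → ℂ) (C : ℝ), 0 < C ∧ Continuous K ∧
  (∀ ξ, ‖K ξ‖ ≤ C / (1 + ξ ^ 2)) ∧
  ∀ (q : ℕ) (χ : DirichletCharacter ℂ q) (X u : ℕ) (t : ℝ), 1 ≤ X → 3 * X ≤ 4 ^ u →
    GA w χ X t = ∑ e ∈ (EU u).filter (fun e => X ≤ 2 ^ (∑ i, e i) ∧ 2 ^ (∑ i, e i) ≤ 64 * X),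
      (if e 1 = 0 ∧ e 3 = 0 then (1 : ℂ) else -1) *
        ∫ ξ : ℝ, K ξ * Complex.exp (((-(ξ * Real.log X) : ℝ) : ℂ) * Complex.I) * PP χ e (t - ξ)

/-- MEA (mean value of products of block polynomials).

Proof. `∏_{i∈S} AA (a i) (e i) t = ∑_{n ≤ P} d_n n^{-it}/n`, `P = 2^{∑_S e}`, where `d_n = 0` unless
`P/16 ≤ n ≤ P`, `|d_n| ≤ K^4 τ_4(n)` (`τ_4` = number of ordered factorizations into four factors). The mean value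
theorem `StMV` of `Helper2/MR` (proved, `Helper68/MR/MV.lean` or `Helper2/MR`) gives
`≤ C (T + P) ∑ |d_n|²/n² ≤ C (T+P) (256/P²) K^8 ∑_{n≤P} τ_4(n)²`, and
`∑_{n≤P} τ_4(n)² ≤ P (1 + log P)^{15}` (or use `τ_4(n) ≤ τ(n)^3` and any bound `P (1+log P)^C`; the
library has moments of divisor functions, e.g. `Helper90/MT/Tau.lean`). -/
def StMea : Prop := ∃ C : ℕ, ∀ (a : Fin 4 → ℕ → ℂ) (e : Fin 4 → ℕ) (S : Finset (Fin 4)) (K T : ℝ),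
  1 ≤ T → 1 ≤ K → (∀ i, ∀ n ∈ blk2 (e i), ‖a i n‖ ≤ K) →
  ∫ t in (-T)..T, ∏ i ∈ S, ‖AA (a i) (e i) t‖ ^ 2 ≤
    C * K ^ 8 * (T / 2 ^ (∑ i ∈ S, e i) + 1) * (1 + ∑ i ∈ S, (e i : ℝ)) ^ C

/-- SU0 (trivial bounds): `∑_{n ∈ block} 1/n ≤ 1`, `log n ≤ e` on the block. -/
def StSu0 : Prop := ∀ (q : ℕ) (χ : DirichletCharacter ℂ q) (e : ℕ) (t : ℝ),
  ‖AA (cmu χ) e t‖ ≤ 1 ∧ ‖AA (cone χ) e t‖ ≤ 1 ∧ ‖AA (clog χ) e t‖ ≤ 1 + e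

/-- SU1 (Möbius blocks). Proof: MOB (with `A+2`) at all `N` in `[2^{e-1}, 2^e]` (`2^{e-1} ≥ X^{1/6}` for
large `X`) and partial summation with `1/n`. -/
def StSu1 : Prop := ∀ A B : ℕ, ∃ B1 X0 : ℕ, ∀ X : ℕ, X0 ≤ X → ∀ (q : ℕ) [NeZero q]
  (χ : DirichletCharacter ℂ q) (e : ℕ) (τ : ℝ), (q : ℝ) ≤ Real.log X ^ B →
  (X : ℝ) ^ (1 / 5 : ℝ) ≤ 2 ^ e → 2 ^ e ≤ X ^ 2 → Real.log X ^ B1 ≤ |τ| → |τ| ≤ X →
  ‖AA (cmu χ) e τ‖ ≤ 1 / Real.log X ^ A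

/-- SU2 (smooth blocks, power saving). Proof: split into residue classes modulo `q`, ES2 on each
(`N = 2^{e-1} ≥ X^{1/6}` for large `X`), partial summation with `1/n` or `log n / n`. -/
def StSu2 : Prop := ∃ C c : ℝ, 0 < C ∧ 0 < c ∧ ∃ X0 : ℕ, ∀ X : ℕ, X0 ≤ X → ∀ (q : ℕ) [NeZero q]
  (χ : DirichletCharacter ℂ q) (e : ℕ) (τ : ℝ), (X : ℝ) ^ (1 / 5 : ℝ) ≤ 2 ^ e → 2 ^ e ≤ X ^ 2 →
  1 ≤ |τ| → |τ| ≤ X →
  ‖AA (cone χ) e τ‖ ≤ C * q ^ 2 * (1 / |τ| + (X : ℝ) ^ (-c)) ∧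
  ‖AA (clog χ) e τ‖ ≤ C * q ^ 2 * Real.log X * (1 / |τ| + (X : ℝ) ^ (-c))

/-- SU3 (smooth blocks, long). Proof: residue classes, ES3, partial summation. -/
def StSu3 : Prop := ∃ C : ℝ, 0 < C ∧ ∀ (q : ℕ) [NeZero q] (χ : DirichletCharacter ℂ q) (e : ℕ)
  (τ : ℝ), 1 ≤ |τ| →
  ‖AA (cone χ) e τ‖ ≤ C * q * (1 / |τ| + |τ| / 2 ^ e) ∧
  ‖AA (clog χ) e τ‖ ≤ C * q * (1 + e) * (1 / |τ| + |τ| / 2 ^ e)

/-- TUP (every tuple of blocks is small in mean square).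

Proof. `T' = √X L^D`. Let `i*` be the index with the largest `e i`; then `2^{e i*} ≥ X^{1/4}`. All
`e i ≤ 2 log(64X) ≤ C L`.
(1) `i* ∈ {0,1}`: `2^{e i*} ≤ 4√X`. `sup |AA (cmu χ)| ≤ L^{-A'}` (SU1), the product of the other three has
`2^{∑'} ≥ √X/4`, so by MEA (`K = 1 + C L`) its mean square over `|t| ≤ 2T'` is `≤ L^{D+C}`.
(2) `i* ∈ {2,3}`, `2^{e i*} ≤ √X L^{D'}`: by SU2 the sup over `|t| ≥ L^{B1}/2` is
`≤ C L^{2B+1}(2 L^{-B1} + X^{-c}) ≤ L^{-A'}`; the rest has `2^{∑'} ≥ √X L^{-D'}`, mean square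
`≤ L^{D+D'+C}`.
(3) `i* ∈ {2,3}`, `2^{e i*} > √X L^{D'}`: by SU3 `|AA| ≤ C L^{B+1}(1/|t| + |t|/2^{e i*})`; the part with
`1/|t|` and the trivial sup (SU0) of the others contributes `≤ C L^{2B+4} L^{-B1}`; the other part
`≤ C L^{2B+2} (2T'/2^{e i*})² (2T' 2^{e i*}/X + 1) L^C ≤ L^{2B+C+2}(8 L^{3D-D'} + 4L^{2D-2D'})`. Choose first
`D' = 3D + A + 2B + C + 10`, then `A'`, then `B1`. -/
def StTup : Prop := ∀ A B D : ℕ, ∃ B1 X0 : ℕ, ∀ X : ℕ, X0 ≤ X → ∀ (q : ℕ) [NeZero q]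
  (χ : DirichletCharacter ℂ q) (e : Fin 4 → ℕ), (q : ℝ) ≤ Real.log X ^ B →
  (2 : ℝ) ^ e 0 ≤ 4 * √X → (2 : ℝ) ^ e 1 ≤ 4 * √X → X ≤ 2 ^ (∑ i, e i) → 2 ^ (∑ i, e i) ≤ 64 * X →
  ∫ t in {t : ℝ | Real.log X ^ B1 / 2 ≤ |t| ∧ |t| ≤ 2 * √X * Real.log X ^ D}, ‖PP χ e t‖ ^ 2 ≤
    1 / Real.log X ^ A

/-- HIF (high frequencies).

Proof. Choose `u` minimal with `3X ≤ 4^u`, so `2^u ≤ √(12X) ≤ 4√X` and `u ≤ C L`. DEC: at most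
`(2u+1)^4 ≤ C L^4` tuples, so `|GA|² ≤ C L^4 ∑_e (∫|K|) ∫ |K(ξ)| |PP(t-ξ)|² dξ`. Integrate over
`R = {L^{B1} ≤ |t| ≤ √X L^D}` and swap. `|ξ| ≤ L^{B1}/2`: `R - ξ` lies in the set of TUP (with `A' = A + 10`):
`≤ L^{-A'} ∫|K|`. `L^{B1}/2 < |ξ| ≤ X`: `R - ξ ⊆ [-2X, 2X]`, MEA with `S = univ` gives `≤ L^{C'}` and
`∫_{|ξ| > L^{B1}/2} |K| ≤ 4C L^{-B1}`. `|ξ| > X`: `sup|PP|² ≤ C L²` (SU0), `|R| ≤ 2√X L^D`,
`∫_{|ξ|>X}|K| ≤ 2C/X`. (`B1` may be enlarged: the set of TUP shrinks.) -/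
def StHif : Prop := ∀ w, IsW w → ∀ A B D : ℕ, ∃ B1 X0 : ℕ, ∀ X : ℕ, X0 ≤ X → ∀ (q : ℕ) [NeZero q]
  (χ : DirichletCharacter ℂ q), (q : ℝ) ≤ Real.log X ^ B →
  ∫ t in {t : ℝ | Real.log X ^ B1 ≤ |t| ∧ |t| ≤ √X * Real.log X ^ D}, ‖GA w χ X t‖ ^ 2 ≤
    1 / Real.log X ^ A

/-- LOW (low frequencies).

Proof. `R(y) = ∑_{m ≤ y} (Λ(m)1_{m≡u(q)} - 1_{(u,q)=1}/φ(q))` satisfies `|R(y)| ≤ 3X L^{-A'}` for integers `y ≤ 3X`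
(library `StSW`, `StTh` of `Helper48/BK`, both proved: `hSW`.. see `Top.lean` there). Partial summation
with `h(y) = w(log(y/X)) y^{-1-it}`, which is supported on `[X, eX]` and has `∫ |h'| ≤ C (1+|t|)/X`. -/
def StLow : Prop := ∀ w, IsW w → ∀ A B : ℕ, ∃ X0 : ℕ, ∀ X : ℕ, X0 ≤ X → ∀ (q u : ℕ) (t : ℝ),
  1 ≤ q → (q : ℝ) ≤ Real.log X ^ B → ‖GB w X q u t‖ ≤ (1 + |t|) / Real.log X ^ A

/-- TOT (the full Gaussian mean square).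

Proof. `T = √X L^D`, `T' = √X L^{D+1}`. (i) `|t| ≤ L^{B1}` (`B1` from HIF for `A+3, B, D+1`): LOW with
`A' = A + 2B1 + 3`. (ii) `L^{B1} ≤ |t| ≤ T'`. If `(u,q) = 1`:
`GB = φ(q)^{-1} ∑_χ χ̄(u) GA w χ X t - φ(q)^{-1} ∑_m w(log(m/X)) m^{-1-it}`; the mean square of the first is
at most the average over `χ` of HIF; the second sum is `O(t^{-2} + |t|/X)` (compare with the integral
`X^{-it} ∫ w(v) e^{-itv} dv`, two integrations by parts) with mean square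
`≤ C(L^{-3B1} + T'^3/X²)`. If `(u,q) > 1`: only prime powers of the primes dividing `q`, `|GB| ≤ L^3/X`.
(iii) `|t| > T'`: `|GB| ≤ C L`, `∫_{|t|>T'} e^{-(t/T)²} dt ≤ C T e^{-L²}`. -/
def StTot : Prop := ∀ w, IsW w → ∀ A B D : ℕ, ∃ X0 : ℕ, ∀ X : ℕ, X0 ≤ X → ∀ (q u : ℕ),
  1 ≤ q → (q : ℝ) ≤ Real.log X ^ B →
  ∫ t : ℝ, Real.exp (-(t / (√X * Real.log X ^ D)) ^ 2) * ‖GB w X q u t‖ ^ 2 ≤ 1 / Real.log X ^ A

/-- SHA (sharp windows are averages of Gaussian windows; compare `Pool.Agent.Helper68.MR.StSh`).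

`g` bounded by `G` on `[1, 3X]`. Proof. `(1/√2π) ∫_{log x}^{log(x+H)} T e^{-T²(u - log m)²/2} du` is `1 + O(e^{-T²d²/4})` for
`m ∈ (x, x+H]` and `O(e^{-T²d²/4})` otherwise, `d = min(|log m - log x|, |log m - log(x+H)|)`, and
`d ≥ min(|m-x|,|m-x-H|)/(4X)`; so the error is at most
`(C G/X)·∑_j e^{-T²j²/(64X²)} ≤ C G (1/X)(1 + X/T)`. (Terms `m ≤ X/2` are even smaller.) -/
def StSha : Prop := ∃ C : ℝ, 0 < C ∧ ∀ (g : ℕ → ℝ) (X H : ℕ) (G T x : ℝ), 1 ≤ X → H ≤ X → 1 ≤ T →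
  T ≤ X → 0 ≤ G → (∀ n, |g n| ≤ G) → (X : ℝ) / 2 ≤ x → x + H ≤ 3 * X →
  |∑ m ∈ (Icc 1 (3 * X)).filter (fun m : ℕ => x < (m : ℝ) ∧ (m : ℝ) ≤ x + H), g m / m| ≤
    (∫ u in (Real.log x)..(Real.log (x + H)),
      ‖∑ m ∈ Icc 1 (3 * X), ((g m : ℝ) : ℂ) / m *
        ((T * Real.exp (-(T ^ 2 * (u - Real.log m) ^ 2 / 2)) : ℝ) : ℂ)‖) + C * G / T

/-- WIN (primes in almost all intervals of length at most `K√X`, in progressions).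

Proof. `D = A + 4`, `T = √X' L^D`. Let `w` be an admissible weight (`StWE`, proved in `Helper15/AB`),
`X' = ⌊X e^{-0.1}⌋`, so `log(m/X') ∈ [0.1, 0.9]` for `X ≤ m ≤ 2X + H`. With `g = gw w X' q u`: Plancherel
(`StGau` of `Helper68/MR`, proved there) and TOT: `∫ |W(v)|² dv ≤ L^{-A'}`,
`W(v) = ∑ g(m)/m T e^{-T²(v - log m)²/2}`. For an integer `N ∈ (X, 2X]`, SHA and
`∑_{N<m≤N+H} g(m) = N ∑_{N<m≤N+H} g(m)/m + O(H² L/X)` give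
`|∑_{N<m≤N+H} g(m)| ≤ 3X ∫_{log N}^{log(N+H)} |W| + C √X L^{1-D} + C L`. By Cauchy-Schwarz (window length
`≤ H/X`) and since each `v` lies in at most `H+1` windows,
`∑_N |∑_{N<m≤N+H} g(m)|² ≤ C X H (H+1) L^{-A'} + C X² L^{2-2D} + C X L²`. As `w` is Lipschitz and `≥ 0.001` on
`[0.1,0.9]`, `∑ g(m) = w(log(N/X')) (∑_{m≡u} Λ(m) - 1_{(u,q)=1} H/φ(q)) + O(H² L/X)`. Finally `Λ - th` is
supported on proper prime powers; an interval `(N, N+H]`, `H ≤ K√X`, contains at most `(K+2) C L` of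
them (at most `K+2` `j`-th powers for each `2 ≤ j ≤ C L`), contribution `≤ C L²` for each `N`. -/
def StWin : Prop := ∀ A B K : ℕ, ∃ X0 : ℕ, ∀ X : ℕ, X0 ≤ X → ∀ (q u H : ℕ), 1 ≤ q →
  (q : ℝ) ≤ Real.log X ^ B → (H : ℝ) ≤ K * √X →
  ∑ N ∈ Ioc X (2 * X), (∑ m ∈ (Ioc N (N + H)).filter (fun m => m ≡ u [MOD q]), th m -
    (if Nat.Coprime u q then (H : ℝ) / Nat.totient q else 0)) ^ 2 ≤ (X : ℝ) ^ 2 / Real.log X ^ A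

end Pool.Agent.Helper23.GK
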