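import Pool.Agent.Helper23.GK.StF

/-!
# Project GK: statements, part G (circle method and conclusion). `L = log X` or `log x`.
-/

set_option autoImplicit false

namespace Pool.Agent.Helper23.GK

open Finset ArithmeticFunction
open Pool.Agent.Helper48.BK (ex th Sx Apx)

/-- RAM (Ramanujan sums). (a) `c_q(n) = ∑_{b mod q, (b,q)=1} e(bn/q)` (Möbius inversion of the sums
over all `b mod q`); (b) `|c_q(n)| ≤ φ(q)`; (c) `∑_{(u,q)=1} c_q(N-u) = μ(q) c_q(N)`: insert (a),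
`∑_{(u,q)=1} e(-bu/q) = c_q(1) = μ(q)` for `(b,q)=1`; (d) `∑_{r∣q} μ(r) c_r(u)/φ(r)` is multiplicative
(for fixed `u` it is `∏_{p∣q} (1 - c_p(u)/(p-1))`, `c_p(u) = p-1` if `p ∣ u`, else `-1`), so it is `0` if
`(u,q) > 1` and `∏_{p∣q} p/(p-1) = q/φ(q)` if `(u,q) = 1`; (e) `∑_{N ≤ Y} |c_q(N)| ≤ Y τ(q)` (from the
definition with divisors, `∑_{N≤Y, d∣N} d ≤ Y`). -/
def StRam : Prop :=
  (∀ (q : ℕ) (n : ℤ), 1 ≤ q → ((cR q n : ℤ) : ℂ) =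
    ∑ b ∈ (range q).filter (fun b => Nat.Coprime b q), ex ((b : ℝ) * n / q)) ∧
  (∀ (q : ℕ) (n : ℤ), 1 ≤ q → |cR q n| ≤ (Nat.totient q : ℤ)) ∧
  (∀ (q : ℕ) (N : ℤ), 1 ≤ q →
    ∑ u ∈ (range q).filter (fun u => Nat.Coprime u q), cR q (N - u) = moebius q * cR q N) ∧
  (∀ (q u : ℕ), 1 ≤ q → ∑ r ∈ q.divisors, (moebius r : ℝ) / (Nat.totient r : ℝ) * (cR r u : ℝ) =
    if Nat.Coprime u q then (q : ℝ) / Nat.totient q else 0) ∧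
  (∀ (q Y : ℕ), 1 ≤ q → ∑ N ∈ Icc 1 Y, (|cR q N| : ℤ) ≤ (Y : ℤ) * (q.divisors.card : ℤ))

/-- LAP (the model in residue classes, `q ≤ Q`).

Proof. By RAM (a), `LQ Q n = ∑_{r≤Q} μ(r)/φ(r) ∑_{b mod r}^* e(bn/r)`. For `r ∣ q` and `n ≡ u (mod q)` the inner
sum is `c_r(u)`; the number of `n ≤ y` in the class is `y/q + O(1)`, and by RAM (d) (all divisors of
`q` are `≤ Q`) these terms give `y 1_{(u,q)=1}/φ(q) + O(∑_{r∣q} 1)`, error `≤ q ≤ Q`. For `r ∤ q`, `(b,r)=1`: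
`bq/r` is not an integer, the geometric sum over `n = qm + u'` is at most `1/(2‖bq/r‖) ≤ r/2`, total
`≤ ∑_{r≤Q} r/2 ≤ Q²`. -/
def StLap : Prop := ∀ (Q q u y : ℕ), 1 ≤ q → q ≤ Q →
  |∑ n ∈ (Ioc 0 y).filter (fun n => n ≡ u [MOD q]), LQ Q n -
    (if Nat.Coprime u q then (y : ℝ) / Nat.totient q else 0)| ≤ 2 * (Q : ℝ) ^ 2

/-- LMI (the model on minor arcs, `q > Q`).

Proof. `|Sx (LQ Q) y α| ≤ ∑_{r≤Q} 1/φ(r) ∑_{b}^* 1/(2‖α + b/r‖)` and `‖α + b/r‖ ≥ ‖h/q + b/r‖ - |α - h/q| ≥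
1/(qr) - 1/(2qQ) ≥ 1/(2qr)` (`h/q + b/r` is not an integer since `r < q`, `(h,q) = 1`). So the sum is
at most `∑_{r ≤ Q} q r ≤ q Q²`. -/
def StLmi : Prop := ∀ (Q q y : ℕ) (h : ℤ) (α : ℝ), 1 ≤ Q → Q < q → IsCoprime h (q : ℤ) →
  |α - h / q| ≤ 1 / (2 * q * Q) → ‖Sx (LQ Q) y α‖ ≤ q * (Q : ℝ) ^ 2

/-- DVQ (exponential sums of `th - LQ`).

Proof. `B = max B0 (2A + 20)`, `B' = 3B + A + 10`. Given `α`, Dirichlet: `(h, q) = 1`, `1 ≤ q ≤ x/L^{B'}`,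
`|α - h/q| ≤ L^{B'}/(q x)` (note this is `≤ 1/q²` and, for large `x`, `≤ 1/(2qQ)`).
`q ≤ Q`: library `StPS` (`Helper48/BK/M_PS.lean`) with `f = th - LQ Q`, and
`R = x/L^{A'} + 2Q²` from `StSW` (Siegel-Walfisz, `q ≤ L^{B+1}`) and LAP: the sum is at most
`q R (1 + 2π |β| x) ≤ L^{B+1} R · 8 L^{B'}`; choose `A' = A + B + B' + 3`.
`q > Q`: `StVau` (`M_Vau.lean`) with `U = ⌊x^{1/3}⌋`: `|Sx Λ| ≤ C x (L^{-B/2} + x^{-1/6} + L^{-B'/2} + x^{-1/3}) L^6`, `StTh` for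
`Λ → th`; and LMI: `|Sx LQ| ≤ q Q² ≤ x L^{2B+2-B'}`. (Compare `Helper48/BK/M_Dav.lean`, the same assembly
for another model.) -/
def StDvq : Prop := ∀ A B0 : ℕ, ∃ B x₀ : ℕ, B0 ≤ B ∧ ∀ x Q : ℕ, x₀ ≤ x → Real.log x ^ B ≤ Q →
  (Q : ℝ) ≤ Real.log x ^ (B + 1) → ∀ (α : ℝ) (y : ℕ), y ≤ x →
  ‖Sx (fun n => th n - LQ Q n) y α‖ ≤ x / Real.log x ^ A

/-- CNV (convolution bound): `‖f * g‖₂ ≤ sup|f^| ‖g‖₂`.

Proof. Put `f` on `(0, Y]` and `g` on `(0, X]` (zero elsewhere). For `N ≤ X` the inner sum is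
`(f*g)(N)`, the `N`-th Fourier coefficient of `f^ g^`; by Parseval (over `[0,1]`, or over
`ℤ/mℤ` with `m > X + Y`) `∑_N |(f*g)(N)|² ≤ ∫ |f^|²|g^|² ≤ D² ∑ g²`. -/
def StCnv : Prop := ∀ (f g : ℕ → ℝ) (X Y : ℕ) (D : ℝ), (∀ α, ‖Sx f Y α‖ ≤ D) →
  ∑ N ∈ Ioc 0 X, (∑ n ∈ (Ioc 0 Y).filter (fun n => n < N), f n * g (N - n)) ^ 2 ≤
    D ^ 2 * ∑ n ∈ Ioc 0 X, g n ^ 2

/-- MNQ (main term). Proof. For `n = N - m`, `m ∈ [N-H, N)`, `m ≡ u (mod q)`: `c_q(n) = c_q(N-u)`. So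
`∑ LQ Q n th(N-n) = ∑_{q≤Q} μ(q)/φ(q) ∑_{u mod q} c_q(N-u) (1_{(u,q)=1} H/φ(q) + EE N H q u)`; the main part is
`H SQ Q N` by RAM (c), the error is bounded with RAM (b). -/
def StMnq : Prop := ∀ (Q N H : ℕ), H < N →
  |∑ n ∈ Ioc 0 H, LQ Q n * th (N - n) - H * SQ Q N| ≤
    ∑ q ∈ Icc 1 Q, ∑ u ∈ range q, |EE N H q u|

/-- SSA (bounds for the singular series). `∏_{p>2} (1-1/(p-1)²) ≥ ∏_{m≥2} (1-1/m²) = 1/2` (all partial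
products of the left side are at least partial products of the right side, telescoping) and the other
product is `≥ 1`. Upper bound: the first product is `≤ 1`; the prime divisors `p > 2` of `N` are
distinct odd numbers `≥ 3`, so `∏ (p-1)/(p-2) ≤ ∏_{i=1}^{ω} 2i/(2i-1) ≤ 2ω ≤ ...` with
`ω ≤ log N / log 2` (each factor `2i/(2i-1) ≤ (i+1)/i` for `i ≥ 1`, so the product is `≤ ω+1`). -/
def StSsa : Prop := ∀ N : ℕ, 1 ≤ N → 1 ≤ SS N ∧ SS N ≤ 2 * (1 + 2 * Real.log N)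

/-- SSB (the singular series as a series), `N ≥ 1` even. Proof. `f(q) = μ(q)² c_q(N)/φ(q)²` is multiplicative,
supported on squarefree `q`, absolutely summable (`|f(q)| ≤ σ(N) μ²(q)/φ(q)²`, and
`∑ μ²(q)/φ(q)² = ∏ (1 + 1/(p-1)²) < ∞`), so `∑ f(q) = ∏_p (1 + f(p))`
(`EulerProduct.eulerProduct_hasProd`), `f(p) = 1/(p-1)` if `p ∣ N`, `-1/(p-1)²` otherwise; `p = 2` gives `2`,
and for `p ∣ N`, `p > 2`: `1 + 1/(p-1) = (1 - 1/(p-1)²)·(p-1)/(p-2)`. -/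
def StSsb : Prop := ∀ N : ℕ, 1 ≤ N → Even N →
  HasSum (fun q : ℕ => (moebius q : ℝ) ^ 2 / (Nat.totient q : ℝ) ^ 2 * (cR q N : ℝ)) (SS N)

/-- SSC (tail on average). Proof. By SSB `|SS N - SQ Q N| ≤ ∑_{q>Q} μ²(q)|c_q(N)|/φ(q)²`; sum over `N ≤ Y`
with RAM (e): `≤ Y ∑_{q>Q} τ(q)μ²(q)/φ(q)²` and `τ(q) ≤ C q^{1/8}`, `φ(q) ≥ c q^{7/8}`, so the tail is
`≤ C Q^{-1/2}`. -/
def StSsc : Prop := ∃ C : ℝ, 0 < C ∧ ∀ Q Y : ℕ, 1 ≤ Q →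
  ∑ N ∈ (Icc 1 Y).filter (fun N => Even N), |SS N - SQ Q N| ≤ C * Y / √Q

/-- FN1 (one value of `H`).

Proof. Let `x = ⌈(K+1)√X⌉`, apply DVQ with `A' = 2A + 6`, `B0 = 4A + 20` at `x` (`log x ≥ L/3`), get `B`;
`Q = ⌈log x ^ B⌉`.
Put `S1 = ∑_{n≤H}(th - LQ)(n) th(N-n)`: by CNV (`Y = H`, `X → 2X`) `∑_N S1² ≤ (C√X/L^{A'})² · 2X · C L²`. By MNQ
(for `N > X ≥ H`) the rest differs from `H·SQ` by at most `∑_{q,u} |EE N H q u|`, whose square is at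
most `Q² ∑_{q,u} EE²`; `EE N H q u` is the discrepancy over `(N-H-1, N-1]`; WIN at the scales `⌊X/2⌋`,
`⌈X/2⌉`, `X` (they cover all starting points in `(X/2, 2X]`), with `A'' = 2A + 4B + 20`, so
`∑_N (∑|EE|)² ≤ Q⁴ · 3X² L^{-A''}`. SSC: `∑_N H|SQ - SS| ≤ C K√X X Q^{-1/2} ≤ X^{3/2} L^{-2A-5}`. Markov's inequality
three times. (`∑_{q ≤ Q} q ≤ Q²` pairs `(q,u)`; WIN needs `q ≤ log Y ^ (B+1)`.) -/
def StFn1 : Prop := ∀ A K : ℕ, ∃ X0 : ℕ, ∀ X : ℕ, X0 ≤ X → ∀ H : ℕ, (H : ℝ) ≤ K * √X →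
  (((Ioc X (2 * X)).filter (fun N => Even N ∧ √X / Real.log X ^ A <
    |∑ n ∈ (Ioc 0 H).filter (fun n => n < N), th n * th (N - n) - SS N * H|)).card : ℝ) ≤
    X / Real.log X ^ A

open Classical in
/-- the exceptional set: even `N ∈ s` for which the asymptotic formula fails for some `y ≤ K√N` -/
noncomputable def Exc (A K : ℕ) (s : Finset ℕ) : Finset ℕ :=
  s.filter (fun N => Even N ∧ ∃ y : ℝ, 0 ≤ y ∧ y ≤ K * √N ∧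
    √N / Real.log N ^ A < |RN N y - SS N * y|)

/-- FN2 (all `y` simultaneously). Proof. `J = ⌈L^{A+3}⌉`, grid `H_i = ⌊i √X / J⌋`, `0 ≤ i ≤ 2KJ + 1` (covers
`y ≤ K√(2X)`). `RN N y = ∑_{n ≤ ⌊y⌋, n<N} th n th(N-n)` is nondecreasing in `y`. If FN1's inequality holds at all
`H_i` (FN1 with `A' = 2A + 6`, constant `2K+2`; the exceptional sets have total size
`≤ (2KJ+2) X L^{-A'} ≤ X L^{-A}`), then for `H_i ≤ y < H_{i+1} + 1`: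
`|RN N y - SS N y| ≤ √X L^{-A'} + SS N (H_{i+1} - H_i + 2) ≤ √X L^{-A'} + C L (√X/J + 3) ≤ √N/log^A N`
(SSA; `log N ≤ 2L`: use `A+1` first to absorb constants). -/
def StFn2 : Prop := ∀ A K : ℕ, ∃ X0 : ℕ, ∀ X : ℕ, X0 ≤ X →
  ((Exc A K (Ioc X (2 * X))).card : ℝ) ≤ X / Real.log X ^ A

/-- FN3 (all scales). Proof. Cut `[1, X]` dyadically down to `√X`: blocks `(X/2^{i+1}, X/2^i]` are
contained in `(Y, 2Y]` or `(Y, 2Y+1]`.. with `Y = ⌊X/2^{i+1}⌋` (cover `(Y, 2Y+1] ⊆ (Y,2Y] ∪ (Y+1, 2Y+2]`); for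
`Y ≥ √X/2` FN2 gives `≤ 2(Y+1)/log^A Y ≤ C (Y+1)/log^A X`; numbers `≤ √X` trivially; small `X`: constant. -/
def StFn3 : Prop := ∀ A K : ℕ, ∃ C : ℝ, ∀ X : ℕ, 2 ≤ X →
  ((Exc A K (Icc 1 X)).card : ℝ) ≤ C * X / Real.log X ^ A

end Pool.Agent.Helper23.GK
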